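import Pool.Agent.Lib.MP_52f683_gt.Hyper

-- part Pool.Agent.Lib.MP_52f683_gt.Tools
section

set_option autoImplicit false
set_option linter.unusedSectionVars false

open Set Topology Filter

namespace Pool.Agent.Lib.MP_52f683_gt

variable {S : Type*} [TopologicalSpace S]

/-- countably infinite discrete subsets -/
structure CD (A : Set S) : Prop where
  inf : A.Infinite
  cnt : A.Countable
  dsc : Disjoint A (derivedSet A)

/-- equivalence under self-homeomorphisms -/
def Eqv (A B : Set S) : Prop := ∃ h : S ≃ₜ S, h '' A = B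

/-- separated sets -/
def Sp (A B : Set S) : Prop := Disjoint A (closure B) ∧ Disjoint B (closure A)

lemma Eqv.rfl' (A : Set S) : Eqv A A := ⟨Homeomorph.refl S, by simp⟩

lemma Sp.symm {A B : Set S} (h : Sp A B) : Sp B A := ⟨h.2, h.1⟩

lemma img_der (h : S ≃ₜ S) (A : Set S) : h '' derivedSet A = derivedSet (h '' A) := by
  refine (h.continuous.image_derivedSet h.injective).antisymm fun x hx => ?_
  have := h.symm.continuous.image_derivedSet h.symm.injective (mem_image_of_mem _ hx)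
  rw [image_image] at this
  simp only [Homeomorph.symm_apply_apply, image_id'] at this
  exact ⟨h.symm x, this, by simp⟩

lemma img_cl (h : S ≃ₜ S) (A : Set S) : h '' closure A = closure (h '' A) := h.image_closure A

lemma img_diff (h : S ≃ₜ S) (A B : Set S) : h '' (A \ B) = h '' A \ h '' B :=
  image_sdiff h.injective A B

lemma img_inter (h : S ≃ₜ S) (A B : Set S) : h '' (A ∩ B) = h '' A ∩ h '' B :=
  image_inter h.injective

lemma mem_img (h : S ≃ₜ S) {A : Set S} {x : S} : h x ∈ h '' A ↔ x ∈ A :=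
  h.injective.mem_set_image

lemma der_mono {A B : Set S} (h : A ⊆ B) : derivedSet A ⊆ derivedSet B := derivedSet_mono _ _ h

lemma der_sub_cl {A : Set S} : derivedSet A ⊆ closure A := derivedSet_subset_closure A

lemma mem_cl_iff {A : Set S} {x : S} : x ∈ closure A ↔ x ∈ A ∨ x ∈ derivedSet A := by
  rw [closure_eq_self_union_derivedSet]; rfl

lemma der_diff {A B : Set S} {x : S} (hx : x ∈ derivedSet A) (hB : x ∉ derivedSet B) :
    x ∈ derivedSet (A \ B) := by
  have : x ∈ derivedSet ((A \ B) ∪ B) := der_mono (fun y hy => by by_cases h : y ∈ B <;> simp [*]) hx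
  rw [derivedSet_union] at this
  exact this.resolve_right hB

lemma der_inter {A B : Set S} {x : S} (hx : x ∈ derivedSet A) (hB : x ∉ derivedSet (A \ B)) :
    x ∈ derivedSet (A ∩ B) := by
  have := der_diff hx hB
  rwa [sdiff_sdiff_right_self] at this

lemma CD.image {A : Set S} (hA : CD A) (h : S ≃ₜ S) : CD (h '' A) :=
  ⟨hA.inf.image h.injective.injOn, hA.cnt.image _, by
    rw [← img_der]; exact (disjoint_image_iff h.injective).2 hA.dsc⟩

lemma CD.mono {A B : Set S} (hA : CD A) (h : B ⊆ A) (hB : B.Infinite) : CD B :=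
  ⟨hB, hA.cnt.mono h, hA.dsc.mono h (der_mono h)⟩

lemma CD.union {A B : Set S} (hA : CD A) (hB : CD B) (h1 : Disjoint A (derivedSet B))
    (h2 : Disjoint B (derivedSet A)) : CD (A ∪ B) :=
  ⟨hA.inf.mono subset_union_left, hA.cnt.union hB.cnt, by
    rw [derivedSet_union]
    exact disjoint_union_left.2 ⟨disjoint_union_right.2 ⟨hA.dsc, h1⟩,
      disjoint_union_right.2 ⟨h2, hB.dsc⟩⟩⟩

lemma CD.union_sp {A B : Set S} (hA : CD A) (hB : CD B) (h : Sp A B) : CD (A ∪ B) :=
  hA.union hB (h.1.mono_right der_sub_cl) (h.2.mono_right der_sub_cl)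

lemma CD.sp {D A B : Set S} (hD : CD D) (hA : A ⊆ D) (hB : B ⊆ D) (h : Disjoint A B) : Sp A B := by
  refine ⟨disjoint_left.2 fun x hx hx' => ?_, disjoint_left.2 fun x hx hx' => ?_⟩
  · rcases mem_cl_iff.1 hx' with h1 | h1
    · exact disjoint_left.1 h hx h1
    · exact disjoint_left.1 hD.dsc (hA hx) (der_mono hB h1)
  · rcases mem_cl_iff.1 hx' with h1 | h1
    · exact disjoint_left.1 h h1 hx
    · exact disjoint_left.1 hD.dsc (hB hx) (der_mono hA h1)

lemma Thin.eqv_cd (hS : Thin S) {A B : Set S} (hA : CD A) (hB : CD B) : Eqv A B := by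
  have := discreteTopology_of_noAccPts (E := A) fun x hx h => disjoint_left.1 hA.dsc hx h
  have := discreteTopology_of_noAccPts (E := B) fun x hx h => disjoint_left.1 hB.dsc hx h
  have := hA.cnt.to_subtype
  have := hB.cnt.to_subtype
  have := hA.inf.to_subtype
  have := hB.inf.to_subtype
  obtain ⟨e⟩ : Nonempty (A ≃ B) := nonempty_equiv_of_countable
  exact hS A B ⟨e.toHomeomorphOfDiscrete⟩

lemma Thin.glueE (hS : Thin S) {A B A' B' : Set S} (hA : Eqv A A') (hB : Eqv B B') (h : Sp A B)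
    (h' : Sp A' B') : Eqv (A ∪ B) (A' ∪ B') := by
  obtain ⟨g1, rfl⟩ := hA
  obtain ⟨g2, rfl⟩ := hB
  exact hS.glue2 g1 g2 isClosed_closure.isOpen_compl isClosed_closure.isOpen_compl
    h.1.subset_compl_right h.2.subset_compl_right
    (disjoint_left.2 fun x hx hx' => hx (subset_closure hx'))
    (disjoint_left.2 fun x hx hx' => hx (subset_closure hx'))
    isClosed_closure.isOpen_compl isClosed_closure.isOpen_compl
    h'.1.subset_compl_right h'.2.subset_compl_right
    (disjoint_left.2 fun x hx hx' => hx (subset_closure hx'))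
    (disjoint_left.2 fun x hx hx' => hx (subset_closure hx'))

/-- gluing along a family whose members are separated from the union of the others -/
lemma Thin.glueF (hS : Thin S) {ι : Type*} (X Y : ι → Set S) (hXY : ∀ i, Eqv (X i) (Y i))
    (hX : ∀ i, Disjoint (X i) (closure (⋃ j ∈ ({i}ᶜ : Set ι), X j)))
    (hY : ∀ i, Disjoint (Y i) (closure (⋃ j ∈ ({i}ᶜ : Set ι), Y j))) :
    Eqv (⋃ i, X i) (⋃ i, Y i) := by
  choose g hg using hXY
  have := hS.glue X (fun i => (closure (⋃ j ∈ ({i}ᶜ : Set ι), X j))ᶜ)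
    (fun i => (closure (⋃ j ∈ ({i}ᶜ : Set ι), Y j))ᶜ) g
    (fun i => isClosed_closure.isOpen_compl) (fun i => (hX i).subset_compl_right)
    (fun i j hij => disjoint_left.2 fun x hx hx' =>
      hx (subset_closure (mem_biUnion (x := j) (fun h => hij (Eq.symm h)) hx')))
    (fun i => isClosed_closure.isOpen_compl)
    (fun i => by rw [hg]; exact (hY i).subset_compl_right)
    (fun i j hij => disjoint_left.2 fun x hx hx' =>
      hx (subset_closure (mem_biUnion (x := j) (fun h => hij (Eq.symm h)) (hg j ▸ hx'))))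
  simpa only [hg, Eqv] using this

/-- isolated and non-isolated points are matched -/
lemma split_img (h : S ≃ₜ S) {A B A' B' : Set S} (e : h '' (A ∪ B) = A' ∪ B')
    (hA : Disjoint A (derivedSet (A ∪ B))) (hB : B ⊆ derivedSet (A ∪ B))
    (hA' : Disjoint A' (derivedSet (A' ∪ B'))) (hB' : B' ⊆ derivedSet (A' ∪ B')) :
    h '' A = A' ∧ h '' B = B' := by
  have e1 : ∀ {A B : Set S}, Disjoint A (derivedSet (A ∪ B)) → B ⊆ derivedSet (A ∪ B) →
      A = (A ∪ B) \ derivedSet (A ∪ B) ∧ B = (A ∪ B) ∩ derivedSet (A ∪ B) := by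
    intro A B hA hB
    constructor
    · ext x
      exact ⟨fun hx => ⟨Or.inl hx, disjoint_left.1 hA hx⟩,
        fun hx => hx.1.resolve_right fun h => hx.2 (hB h)⟩
    · ext x
      exact ⟨fun hx => ⟨Or.inr hx, hB hx⟩,
        fun hx => hx.1.resolve_left fun h => disjoint_left.1 hA h hx.2⟩
  constructor
  · rw [(e1 hA hB).1, img_diff, img_der, e, ← (e1 hA' hB').1]
  · rw [(e1 hA hB).2, img_inter, img_der, e, ← (e1 hA' hB').2]

lemma hotel {M : Set S} (hM : M.Infinite) (σ : ℕ → ℕ) (hσ : Function.Injective σ) :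
    ∃ (a : ℕ → S) (f g : S → S), Function.Injective a ∧ (∀ n, a n ∈ M) ∧
      (∀ n, f (a n) = a (σ n)) ∧ (∀ x, x ∉ range a → f x = x) ∧
      (∀ n, g (a (σ n)) = a n) ∧ (∀ x, x ∉ range a → g x = x) := by
  classical
  let a : ℕ → S := fun n => hM.natEmbedding M n
  have ha : Function.Injective a := fun m n h =>
    (hM.natEmbedding M).injective (Subtype.ext h)
  refine ⟨a, Function.extend a (a ∘ σ) id, Function.extend (a ∘ σ) a id, ha,
    fun n => (hM.natEmbedding M n).2, fun n => ha.extend_apply _ _ _, fun x hx => ?_,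
    fun n => (ha.comp hσ).extend_apply _ _ n, fun x hx => ?_⟩
  · rw [Function.extend_apply' _ _ _ (by simpa using hx)]; rfl
  · exact Function.extend_apply' (f := a ∘ σ) _ _ _ (fun ⟨n, hn⟩ => hx ⟨σ n, hn⟩)

variable [T1Space S]

lemma der_finite {F : Set S} (hF : F.Finite) : derivedSet F = ∅ := by
  refine eq_empty_of_forall_notMem fun x hx => ?_
  rw [mem_derivedSet, accPt_principal_iff_clusterPt, ← mem_closure_iff_clusterPt,
    (hF.subset sdiff_subset).isClosed.closure_eq] at hx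
  exact hx.2 rfl

lemma inf_of_der {A : Set S} {x : S} (hx : x ∈ derivedSet A) : A.Infinite := fun h => by
  rw [der_finite h] at hx; exact hx

lemma der_sub_of_fin {A B : Set S} (h : (A \ B).Finite) : derivedSet A ⊆ derivedSet B :=
  fun x hx => der_mono inter_subset_right (der_inter hx (by rw [der_finite h]; exact id))

lemma der_der {A : Set S} : derivedSet (derivedSet A) ⊆ derivedSet A :=
  (isClosed_iff_derivedSet_subset _).1 (isClosed_derivedSet A)

lemma der_sub_closed {A C : Set S} (hC : IsClosed C) (h : A ⊆ C) : derivedSet A ⊆ C :=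
  der_sub_cl.trans (closure_minimal h hC)

lemma der_diff_cl {A B : Set S} {x : S} (hx : x ∈ derivedSet A) (hB : x ∉ closure B) :
    x ∈ derivedSet (A \ closure B) :=
  der_diff hx fun h => hB (der_sub_closed isClosed_closure subset_rfl h)

lemma CD.insert {A : Set S} (hA : CD A) {x : S} (hx : x ∉ derivedSet A) : CD (insert x A) :=
  ⟨hA.inf.mono (subset_insert _ _), hA.cnt.insert x, by
    rw [insert_eq, derivedSet_union, der_finite (finite_singleton x), empty_union]
    exact disjoint_union_left.2 ⟨disjoint_singleton_left.2 hx, hA.dsc⟩⟩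

lemma contOn_of_fin {A : Set S} {f : S → S}
    (h : ∀ x ∈ A, ∀ W, IsOpen W → f x ∈ W →
      ∃ U, IsOpen U ∧ x ∈ U ∧ {y | y ∈ A ∩ U ∧ f y ∉ W}.Finite) : ContinuousOn f A := by
  intro x hx
  rw [ContinuousWithinAt, (nhds_basis_opens (f x)).tendsto_right_iff]
  rintro W ⟨hxW, hW⟩
  obtain ⟨U, hU, hxU, hF⟩ := h x hx W hW hxW
  filter_upwards [self_mem_nhdsWithin, mem_nhdsWithin_of_mem_nhds (hU.mem_nhds hxU),
    mem_nhdsWithin_of_mem_nhds (hF.isClosed.isOpen_compl.mem_nhds fun h => h.2 hxW)]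
    with y h1 h2 h3
  by_contra h4
  exact h3 ⟨⟨h1, h2⟩, h4⟩

/-- sets carrying the cofinite topology -/
def Cof (M : Set S) : Prop := ∀ N ⊆ M, N.Infinite → M ⊆ closure N

lemma Cof.contOn {M N : Set S} (hN : Cof N) {f : S → S} (hf : MapsTo f M N) (hi : InjOn f M) :
    ContinuousOn f M := by
  refine contOn_of_fin fun x hx W hW hxW => ⟨univ, isOpen_univ, trivial, ?_⟩
  have : (N \ W).Finite := by
    by_contra h
    exact closure_minimal (fun y hy => hy.2) hW.isClosed_compl (hN _ sdiff_subset h (hf hx)) hxW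
  exact Finite.of_injOn (f := f) (t := N \ W) (fun y hy => ⟨hf hy.1.1, hy.2⟩)
    (hi.mono fun y hy => hy.1.1) this

/-- an infinite set contains an infinite discrete set or a relatively closed cofinite one -/
lemma exists_cd_or {Z : Set S} (hZ : Z.Infinite) :
    (∃ D ⊆ Z, CD D) ∨ ∃ M ⊆ Z, M.Infinite ∧ Z ∩ closure M ⊆ M ∧ Cof M := by
  by_contra hcon
  rw [not_or] at hcon
  obtain ⟨h1, h2⟩ := hcon
  let T := {M : Set S // M ⊆ Z ∧ M.Infinite ∧ Z ∩ closure M ⊆ M}
  have step : ∀ M : T, ∃ N : T, N.1 ⊆ M.1 ∧ ∃ x ∈ M.1, x ∉ N.1 := by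
    rintro ⟨M, hM1, hM2, hM3⟩
    have : ¬ Cof M := fun h => h2 ⟨M, hM1, hM2, hM3, h⟩
    simp only [Cof, not_forall] at this
    obtain ⟨N, hN1, hN2, hN3⟩ := this
    obtain ⟨x, hx, hx'⟩ := not_subset.1 hN3
    refine ⟨⟨Z ∩ closure N, inter_subset_left,
      hN2.mono fun y hy => ⟨hM1 (hN1 hy), subset_closure hy⟩, fun y hy => ⟨hy.1, ?_⟩⟩,
      fun y hy => hM3 ⟨hy.1, closure_mono hN1 hy.2⟩, x, hx, fun h => hx' h.2⟩
    exact closure_minimal inter_subset_right isClosed_closure hy.2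
  choose F hF x hx hx' using step
  let M : ℕ → T := fun n => F^[n] ⟨Z, subset_rfl, hZ, inter_subset_left⟩
  have hM : ∀ n, M (n + 1) = F (M n) := fun n => Function.iterate_succ_apply' _ _ _
  have anti : Antitone fun n => (M n).1 :=
    antitone_nat_of_succ_le fun n => by simp only [hM]; exact hF _
  have key : ∀ m n, m < n → x (M n) ∈ (F (M m)).1 := fun m n h => by
    rw [← hM]; exact anti (Nat.succ_le_of_lt h) (hx _)
  have inj : Function.Injective fun n => x (M n) := by
    refine Function.Injective.of_lt_imp_ne fun m n h e => hx' (M m) ?_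
    rw [show x (M m) = x (M n) from e]
    exact key m n h
  refine h1 ⟨range fun n => x (M n), ?_, infinite_range_of_injective inj, countable_range _, ?_⟩
  · rintro _ ⟨n, rfl⟩
    exact (M n).2.1 (hx _)
  · refine disjoint_left.2 ?_
    rintro _ ⟨n, rfl⟩ h
    have : ((range fun n => x (M n)) \ (F (M n)).1).Finite := by
      refine ((finite_Iic n).image fun n => x (M n)).subset ?_
      rintro _ ⟨⟨m, rfl⟩, hm⟩
      exact ⟨m, not_lt.1 fun h => hm (key n m h), rfl⟩
    exact hx' (M n) ((F (M n)).2.2.2 ⟨(M n).2.1 (hx _), der_sub_cl (der_sub_of_fin this h)⟩)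

/-- an infinite locally closed subset of a thin space contains an infinite discrete set -/
lemma Thin.exists_cd (hS : Thin S) {U C : Set S} (hU : IsOpen U) (hC : IsClosed C)
    (hZ : (C ∩ U).Infinite) : ∃ D ⊆ C ∩ U, CD D := by
  refine (exists_cd_or hZ).resolve_right ?_
  rintro ⟨M, hM1, hM2, hM3, hM4⟩
  obtain ⟨a, f, g, ha, haM, hf, hf', hg, hg'⟩ := hotel hM2 (fun n => 2 * n + 1)
    (fun m n h => by simpa using h)
  let T := range fun n => a (2 * n)
  have hT : T.Infinite := infinite_range_of_injective fun m n h => by simpa using ha h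
  have hTM : T ⊆ M := by rintro _ ⟨n, rfl⟩; exact haM _
  have odd : ∀ n, a (2 * n + 1) ∉ T := by
    rintro n ⟨m, hm⟩
    have := ha hm
    omega
  have cases' : ∀ y ∈ M \ T, (∃ n, y = a (2 * n + 1)) ∨ y ∉ range a := by
    intro y hy
    by_cases h : y ∈ range a
    · obtain ⟨n, rfl⟩ := h
      rcases Nat.even_or_odd' n with ⟨k, rfl | rfl⟩
      · exact absurd ⟨k, rfl⟩ hy.2
      · exact Or.inl ⟨k, rfl⟩
    · exact Or.inr h
  have m1 : MapsTo f M (M \ T) := by
    intro y hy
    by_cases h : y ∈ range a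
    · obtain ⟨n, rfl⟩ := h
      rw [hf]
      exact ⟨haM _, odd n⟩
    · rw [hf' y h]
      exact ⟨hy, fun ⟨n, hn⟩ => h ⟨_, hn⟩⟩
  have m2 : MapsTo g (M \ T) M := by
    intro y hy
    rcases cases' y hy with ⟨n, rfl⟩ | h
    · rw [hg]; exact haM _
    · rw [hg' y h]; exact hy.1
  have i1 : ∀ y ∈ M, g (f y) = y := by
    intro y _
    by_cases h : y ∈ range a
    · obtain ⟨n, rfl⟩ := h
      rw [hf, hg]
    · rw [hf' y h, hg' y h]
  have i2 : ∀ y ∈ M \ T, f (g y) = y := by
    intro y hy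
    rcases cases' y hy with ⟨n, rfl⟩ | h
    · rw [hg, hf]
    · rw [hg' y h, hf' y h]
  have c1 : Cof (M \ T) := fun N hN hN' => sdiff_subset.trans (hM4 N (hN.trans sdiff_subset) hN')
  obtain ⟨h, hh⟩ := hS M (M \ T) (homeo_of_maps f g m1 m2 i1 i2
    (c1.contOn m1 (LeftInvOn.injOn i1)) (hM4.contOn m2 (LeftInvOn.injOn i2)))
  have hMT : (M \ T).Infinite := by rw [← hh]; exact hM2.image h.injective.injOn
  obtain ⟨y, hy⟩ := hMT.nonempty
  have hyU : y ∈ h '' U := by
    have := hy
    rw [← hh] at this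
    exact image_mono (fun z hz => (hM1 hz).2) this
  obtain ⟨t, htU, htT⟩ := mem_closure_iff.1 (hM4 T hTM hT hy.1) _ (h.isOpen_image.2 hU) hyU
  obtain ⟨s, hs, rfl⟩ := htU
  have hcl : s ∈ closure M := by
    rw [← mem_img h, img_cl, hh]
    exact hM4 _ sdiff_subset hMT (hTM htT)
  have : h s ∈ M \ T := by
    rw [← hh, mem_img]
    exact hM3 ⟨⟨closure_minimal (fun z hz => (hM1 hz).1) hC hcl, hs⟩, hcl⟩
  exact this.2 htT

lemma Thin.exists_cd_diff (hS : Thin S) {C K : Set S} (hC : IsClosed C) (hK : IsClosed K)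
    (hZ : (C \ K).Infinite) : ∃ D ⊆ C \ K, CD D :=
  hS.exists_cd hK.isOpen_compl hC hZ

lemma Thin.exists_cd_closed (hS : Thin S) {C : Set S} (hC : IsClosed C)
    (hZ : C.Infinite) : ∃ D ⊆ C, CD D := by
  simpa using hS.exists_cd isOpen_univ hC (by simpa using hZ)

/-- nonempty open sets are infinite -/
lemma Thin.open_inf [Infinite S] (hS : Thin S) {U : Set S} (hU : IsOpen U) (hne : U.Nonempty) :
    U.Infinite := by
  intro h
  obtain ⟨x, hx', hx⟩ := hS.hyper hU h.isClosed.isOpen_compl hne h.infinite_compl.nonempty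
  exact hx hx'

lemma Thin.exists_cd_compl [Infinite S] (hS : Thin S) {K : Set S} (hK : IsClosed K)
    (hne : K ≠ univ) : ∃ D ⊆ Kᶜ, CD D := by
  simpa using hS.exists_cd hK.isOpen_compl isClosed_univ
    (by simpa using hS.open_inf hK.isOpen_compl (nonempty_compl.2 hne))

lemma Thin.union_ne [Infinite S] (hS : Thin S) {K L : Set S} (hK : IsClosed K) (hL : IsClosed L)
    (h1 : K ≠ univ) (h2 : L ≠ univ) : K ∪ L ≠ univ := by
  rw [← nonempty_compl, compl_union]
  exact hS.hyper hK.isOpen_compl hL.isOpen_compl (nonempty_compl.2 h1) (nonempty_compl.2 h2)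

lemma Thin.cl_ne [Infinite S] (hS : Thin S) {D : Set S} (hD : CD D) : closure D ≠ univ := by
  intro h
  obtain ⟨d, hd⟩ := hD.inf.nonempty
  have h1 : d ∉ closure (D \ {d}) := fun h' => disjoint_left.1 hD.dsc hd
    (by rwa [mem_derivedSet, accPt_principal_iff_clusterPt, ← mem_closure_iff_clusterPt])
  refine hS.open_inf isClosed_closure.isOpen_compl ⟨d, h1⟩ ((finite_singleton d).subset ?_)
  intro y hy
  by_contra hyd
  have : y ∈ closure ((D \ {d}) ∪ {d}) := closure_mono (by simp) (h ▸ mem_univ y)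
  rw [closure_union, closure_singleton] at this
  exact this.elim hy hyd

end Pool.Agent.Lib.MP_52f683_gt
end

-- part Pool.Agent.Lib.MP_52f683_gt.Conv
section

set_option autoImplicit false
set_option linter.unusedSectionVars false

open Set Topology Filter

namespace Pool.Agent.Lib.MP_52f683_gt

variable {S : Type*} [TopologicalSpace S]

lemma chain {T : Type*} (M0 : T) (s : T → Set S) (Q : ℕ → T → T → S → Prop)
    (step : ∀ n M, ∃ N x, s N ⊆ s M ∧ x ∈ s M ∧ x ∉ s N ∧ Q n M N x) :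
    ∃ (M : ℕ → T) (x : ℕ → S), M 0 = M0 ∧ Function.Injective x ∧ (∀ n, x n ∈ s (M n)) ∧
      (Antitone fun n => s (M n)) ∧ ∀ n, Q n (M n) (M (n + 1)) (x n) := by
  choose F x h1 h2 h3 h4 using step
  let M : ℕ → T := fun n => Nat.rec M0 (fun n M => F n M) n
  have anti : Antitone fun n => s (M n) := antitone_nat_of_succ_le fun n => h1 n (M n)
  refine ⟨M, fun n => x n (M n), rfl, ?_, fun n => h2 _ _, anti, fun n => h4 _ _⟩
  refine Function.Injective.of_lt_imp_ne fun m n h e => h3 m (M m) ?_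
  rw [show x m (M m) = x n (M n) from e]
  exact anti (Nat.succ_le_of_lt h) (h2 _ _)

variable [T1Space S]

lemma shrink0 {D Y : Set S} (hD : D.Infinite) (hY : Y.Countable)
    (h : ∀ y ∈ Y, ∀ A ⊆ D, A.Infinite → ∃ B ⊆ A, B.Infinite ∧ y ∉ derivedSet B) :
    ∃ B ⊆ D, B.Infinite ∧ Disjoint Y (derivedSet B) := by
  rcases Y.eq_empty_or_nonempty with rfl | hne
  · exact ⟨D, subset_rfl, hD, by simp⟩
  obtain ⟨y, rfl⟩ := hY.exists_eq_range hne
  obtain ⟨M, x, -, hx, hxM, anti, hQ⟩ := chain (T := {A : Set S // A ⊆ D ∧ A.Infinite})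
    ⟨D, subset_rfl, hD⟩ Subtype.val (fun n _ N _ => y n ∉ derivedSet N.1) (by
      rintro n ⟨A, hA1, hA2⟩
      obtain ⟨x, hx⟩ := hA2.nonempty
      obtain ⟨B, hB1, hB2, hB3⟩ := h _ ⟨n, rfl⟩ (A \ {x}) (sdiff_subset.trans hA1)
        (hA2.sdiff (finite_singleton x))
      exact ⟨⟨B, hB1.trans (sdiff_subset.trans hA1), hB2⟩, x, hB1.trans sdiff_subset, hx,
        fun h => (hB1 h).2 rfl, hB3⟩)
  refine ⟨range x, ?_, infinite_range_of_injective hx, disjoint_left.2 ?_⟩
  · rintro _ ⟨n, rfl⟩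
    exact (M n).2.1 (hxM n)
  · rintro _ ⟨n, rfl⟩ hn
    refine hQ n (der_sub_of_fin (((finite_Iic n).image x).subset ?_) hn)
    rintro _ ⟨⟨m, rfl⟩, hm⟩
    exact ⟨m, not_lt.1 fun h => hm (anti (Nat.succ_le_of_lt h) (hxM m)), rfl⟩

/-- the set of limits of `D` along the cofinite filter -/
def Lim (D : Set S) : Set S := {p | ∀ A ⊆ D, A.Infinite → p ∈ derivedSet A}

lemma isClosed_lim (D : Set S) : IsClosed (Lim D) := by
  have : Lim D = ⋂ A ⊆ D, ⋂ _ : A.Infinite, derivedSet A := by ext; simp [Lim]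
  rw [this]
  exact isClosed_biInter fun A _ => isClosed_iInter fun _ => isClosed_derivedSet A

lemma lim_sub {D : Set S} (hD : D.Infinite) : Lim D ⊆ derivedSet D :=
  fun _ hp => hp D subset_rfl hD

lemma img_lim (h : S ≃ₜ S) (D : Set S) : h '' Lim D = Lim (h '' D) := by
  have key : ∀ (h : S ≃ₜ S) (D : Set S), h '' Lim D ⊆ Lim (h '' D) := by
    rintro h D _ ⟨p, hp, rfl⟩ A hA hA'
    obtain ⟨B, hB, rfl⟩ := subset_image_iff.1 hA
    rw [← img_der, mem_img]
    exact hp B hB (Infinite.of_image _ hA')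
  refine (key h D).antisymm fun x hx => ?_
  have := key h.symm _ (mem_image_of_mem _ hx)
  rw [image_image] at this
  simp only [Homeomorph.symm_apply_apply, image_id'] at this
  exact ⟨h.symm x, this, by simp⟩

lemma contL {D1 D2 Y : Set S} (h1 : CD D1) {g h : S → S} [DecidablePred (· ∈ D1)]
    (hg : InjOn g D1) (hg' : MapsTo g D1 D2) (hh : Continuous h) (hY : Y ⊆ derivedSet D1)
    (hY' : MapsTo h Y (Lim D2)) : ContinuousOn (D1.piecewise g h) (D1 ∪ Y) := by
  refine contOn_of_fin fun x hx W hW hxW => ?_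
  rcases hx with hx | hx
  · refine ⟨(closure (D1 \ {x}))ᶜ, isClosed_closure.isOpen_compl, fun h' => ?_,
      (finite_singleton x).subset ?_⟩
    · exact disjoint_left.1 h1.dsc hx
        (by rwa [mem_derivedSet, accPt_principal_iff_clusterPt, ← mem_closure_iff_clusterPt])
    · rintro y ⟨⟨hy | hy, hy'⟩, -⟩
      · by_contra hne
        exact hy' (subset_closure ⟨hy, hne⟩)
      · exact (hy' (der_sub_cl (der_diff (hY hy)
          (by rw [der_finite (finite_singleton x)]; exact id)))).elim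
  · have hx' : x ∉ D1 := fun h' => disjoint_left.1 h1.dsc h' (hY hx)
    rw [piecewise_eq_of_notMem _ _ _ hx'] at hxW
    have hfin : (D2 \ W).Finite := by
      by_contra hinf
      exact der_sub_closed hW.isClosed_compl (fun y hy => hy.2) (hY' hx _ sdiff_subset hinf) hxW
    refine ⟨h ⁻¹' W, hW.preimage hh, hxW, ?_⟩
    have key : ∀ y, (y ∈ (D1 ∪ Y) ∩ h ⁻¹' W ∧ D1.piecewise g h y ∉ W) → y ∈ D1 ∧ g y ∉ W := by
      intro y hy
      by_cases hy' : y ∈ D1
      · exact ⟨hy', by simpa [piecewise_eq_of_mem _ _ _ hy'] using hy.2⟩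
      · exact (hy.2 (by rw [piecewise_eq_of_notMem _ _ _ hy']; exact hy.1.2)).elim
    exact Finite.of_injOn (f := g) (t := D2 \ W) (fun y hy => ⟨hg' (key y hy).1, (key y hy).2⟩)
      (hg.mono fun y hy => (key y hy).1) hfin

lemma der_union_sub {D Y : Set S} (hY : Y ⊆ derivedSet D) : derivedSet (D ∪ Y) ⊆ derivedSet D := by
  rw [derivedSet_union]
  exact union_subset subset_rfl ((der_mono hY).trans der_der)

lemma Thin.conv_glue (hS : Thin S) {D1 D2 Y : Set S} (h1 : CD D1) (h2 : CD D2) (h : S ≃ₜ S)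
    (hY : Y ⊆ Lim D1) (hY' : h '' Y ⊆ Lim D2) : ∃ g : S ≃ₜ S, g '' D1 = D2 ∧ g '' Y = h '' Y := by
  classical
  obtain ⟨g, hg⟩ := hS.eqv_cd h1 h2
  have a1 := hY.trans (lim_sub h1.inf)
  have a2 := hY'.trans (lim_sub h2.inf)
  have n1 : ∀ y ∈ Y, y ∉ D1 := fun y hy h' => disjoint_left.1 h1.dsc h' (a1 hy)
  have n2 : ∀ y ∈ h '' Y, y ∉ D2 := fun y hy h' => disjoint_left.1 h2.dsc h' (a2 hy)
  have m1 : MapsTo g D1 D2 := fun x hx => hg ▸ mem_image_of_mem _ hx
  have m2 : MapsTo g.symm D2 D1 := fun x hx => by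
    rw [← hg] at hx
    obtain ⟨y, hy, rfl⟩ := hx
    simpa using hy
  obtain ⟨k, hk⟩ := hS (D1 ∪ Y) (D2 ∪ h '' Y) (homeo_of_maps (D1.piecewise g h)
    (D2.piecewise g.symm h.symm)
    (by
      rintro x (hx | hx)
      · rw [piecewise_eq_of_mem _ _ _ hx]; exact Or.inl (m1 hx)
      · rw [piecewise_eq_of_notMem _ _ _ (n1 x hx)]; exact Or.inr (mem_image_of_mem _ hx))
    (by
      rintro x (hx | hx)
      · rw [piecewise_eq_of_mem _ _ _ hx]; exact Or.inl (m2 hx)
      · rw [piecewise_eq_of_notMem _ _ _ (n2 x hx)]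
        obtain ⟨y, hy, rfl⟩ := hx
        exact Or.inr (by simpa using hy))
    (by
      rintro x (hx | hx)
      · rw [piecewise_eq_of_mem _ _ _ hx, piecewise_eq_of_mem _ _ _ (m1 hx)]; simp
      · rw [piecewise_eq_of_notMem _ _ _ (n1 x hx),
          piecewise_eq_of_notMem _ _ _ (n2 _ (mem_image_of_mem _ hx))]
        simp)
    (by
      rintro x (hx | hx)
      · rw [piecewise_eq_of_mem _ _ _ hx, piecewise_eq_of_mem _ _ _ (m2 hx)]; simp
      · obtain ⟨y, hy, rfl⟩ := hx
        rw [piecewise_eq_of_notMem _ _ _ (n2 _ (mem_image_of_mem _ hy)),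
          Homeomorph.symm_apply_apply, piecewise_eq_of_notMem _ _ _ (n1 y hy)])
    (contL h1 g.injective.injOn m1 h.continuous a1 fun y hy => hY' (mem_image_of_mem _ hy))
    (contL h2 g.symm.injective.injOn m2 h.symm.continuous a2
      (by rintro _ ⟨y, hy, rfl⟩; simpa using hY hy)))
  exact ⟨k, split_img k hk (h1.dsc.mono_right (der_union_sub a1))
    (a1.trans (der_mono subset_union_left)) (h2.dsc.mono_right (der_union_sub a2))
    (a2.trans (der_mono subset_union_left))⟩

lemma Thin.lim_eq (hS : Thin S) {D A : Set S} (hD : CD D) (hA : A ⊆ D) (hA' : A.Infinite) :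
    Lim A = Lim D := by
  obtain ⟨g, h1, h2⟩ := hS.conv_glue hD (hD.mono hA hA') (Homeomorph.refl S) subset_rfl
    (by rintro _ ⟨p, hp, rfl⟩ B hB; exact hp B (hB.trans hA))
  rw [← h1, ← img_lim, h2]
  simp

/-- a countable discrete set does not converge -/
lemma Thin.lim_empty [Infinite S] (hS : Thin S) {D : Set S} (hD : CD D) : Lim D = ∅ := by
  have fin : ∀ D : Set S, CD D → (Lim D).Finite := by
    intro D hD
    by_contra hinf
    obtain ⟨E, hE1, hE⟩ := hS.exists_cd_closed (isClosed_lim D) hinf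
    obtain ⟨h, hh⟩ := hS.eqv_cd hD hE
    obtain ⟨g, h1, h2⟩ := hS.conv_glue hD hD h subset_rfl (by
      rw [img_lim, hh]
      exact (lim_sub hE.inf).trans (der_sub_closed (isClosed_lim D) hE1))
    rw [img_lim, img_lim, h1, hh] at h2
    obtain ⟨e, he⟩ := hE.inf.nonempty
    exact disjoint_left.1 hE.dsc he (lim_sub hE.inf (h2 ▸ hE1 he))
  have eq1 : ∀ D E : Set S, CD D → CD E → E ⊆ (closure D)ᶜ → Lim D = Lim E := by
    intro D E hD hE hED
    have hA : (D \ Lim E).Infinite := hD.inf.sdiff (fin E hE)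
    obtain ⟨B, hB1, hB2, hB3⟩ := shrink0 hE.inf (hD.cnt.mono (sdiff_subset (t := Lim E)))
      fun y hy A hA1 hA2 => by
        have := hy.2
        rw [← hS.lim_eq hE hA1 hA2] at this
        simpa [Lim] using this
    have hU := (hD.mono sdiff_subset hA).union (hE.mono hB1 hB2) hB3
      (disjoint_left.2 fun x hx hx' => hED (hB1 hx) (der_sub_cl (der_mono sdiff_subset hx')))
    exact (hS.lim_eq hD sdiff_subset hA).symm.trans ((hS.lim_eq hU subset_union_left hA).trans
      ((hS.lim_eq hU subset_union_right hB2).symm.trans (hS.lim_eq hE hB1 hB2)))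
  refine eq_empty_of_forall_notMem fun p hp => ?_
  refine infinite_univ ((fin D hD).subset fun z _ => ?_)
  obtain ⟨h, rfl⟩ := hS.homog p z
  obtain ⟨E, hE1, hE⟩ := hS.exists_cd_compl (isClosed_closure.union isClosed_closure)
    (hS.union_ne isClosed_closure isClosed_closure (hS.cl_ne hD) (hS.cl_ne (hD.image h)))
  rw [compl_union] at hE1
  rw [eq1 D E hD hE (hE1.trans inter_subset_left),
    ← eq1 _ E (hD.image h) hE (hE1.trans inter_subset_right), ← img_lim]
  exact mem_image_of_mem _ hp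

lemma Thin.shrink [Infinite S] (hS : Thin S) {D Y : Set S} (hD : CD D) (hY : Y.Countable) :
    ∃ B ⊆ D, CD B ∧ Disjoint Y (derivedSet B) := by
  obtain ⟨B, h1, h2, h3⟩ := shrink0 hD.inf hY fun y _ A hA1 hA2 => by
    have : y ∉ Lim A := by rw [hS.lim_empty (hD.mono hA1 hA2)]; exact id
    simpa [Lim] using this
  exact ⟨B, h1, hD.mono h1 h2, h3⟩

/-- derived sets of subsets of a countable discrete set are closed under intersection -/
lemma Thin.meet0 [Infinite S] (hS : Thin S) {D A B : Set S} (hD : CD D) (hA : A ⊆ D) (hB : B ⊆ D)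
    (hAB : Disjoint A B) : ∃ A1 ⊆ A, derivedSet A1 = derivedSet A ∩ derivedSet B := by
  by_cases hBf : B.Finite
  · exact ⟨∅, empty_subset _, by rw [der_finite hBf, der_finite finite_empty, inter_empty]⟩
  have hB' := hD.mono hB hBf
  set Z := derivedSet A \ derivedSet B with hZ
  have hZD : Z ⊆ derivedSet D := sdiff_subset.trans (der_mono hA)
  have sp : ∀ P Q : Set S, P ⊆ D → Q ⊆ D → Disjoint P Q → Disjoint Z (derivedSet Q) →
      Sp (P ∪ Z) Q := by
    intro P Q hP hQ hPQ hZQ
    have := hD.sp hP hQ hPQ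
    refine ⟨disjoint_union_left.2 ⟨this.1, ?_⟩, ?_⟩
    · rw [closure_eq_self_union_derivedSet]
      exact disjoint_union_right.2 ⟨(hD.dsc.mono hQ hZD).symm, hZQ⟩
    · rw [closure_union]
      exact disjoint_union_right.2 ⟨this.2,
        hD.dsc.mono hQ (closure_minimal hZD (isClosed_derivedSet D))⟩
  have spl : ∀ (h : S ≃ₜ S) (P Q : Set S), A ⊆ P → P ⊆ D → A ⊆ Q → Q ⊆ D →
      h '' (P ∪ Z) = Q ∪ Z → h '' P = Q ∧ h '' Z = Z := by
    intro h P Q h1 h2 h3 h4 e
    have a1 : ∀ P : Set S, P ⊆ D → Disjoint P (derivedSet (P ∪ Z)) := fun P hP =>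
      hD.dsc.mono hP ((der_mono (union_subset_union_left _ hP)).trans (der_union_sub hZD))
    have a2 : ∀ P : Set S, A ⊆ P → Z ⊆ derivedSet (P ∪ Z) := fun P hP =>
      sdiff_subset.trans (der_mono (hP.trans subset_union_left))
    exact split_img h e (a1 P h2) (a2 P h1) (a1 Q h4) (a2 Q h3)
  by_cases hab : ∃ A0 ⊆ A, A0.Infinite ∧ Disjoint Z (derivedSet A0)
  · obtain ⟨A0, h1, h2, h3⟩ := hab
    have hA0 := hD.mono (h1.trans hA) h2
    have hU : A0 ∪ B ⊆ D := union_subset (h1.trans hA) hB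
    obtain ⟨h, hh⟩ := hS.glueE (Eqv.rfl' (A \ A0 ∪ Z))
      (hS.eqv_cd hA0 (hD.mono hU (h2.mono subset_union_left)))
      (sp _ _ (sdiff_subset.trans hA) (h1.trans hA) disjoint_sdiff_left h3)
      (sp _ _ (sdiff_subset.trans hA) hU
        (disjoint_union_right.2 ⟨disjoint_sdiff_left, hAB.mono_left sdiff_subset⟩)
        (by rw [derivedSet_union]; exact disjoint_union_right.2 ⟨h3, disjoint_sdiff_left⟩))
    rw [union_right_comm, sdiff_union_of_subset h1, union_right_comm, ← union_assoc,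
      sdiff_union_of_subset h1] at hh
    obtain ⟨e1, e2⟩ := spl h A (A ∪ B) subset_rfl hA subset_union_left (union_subset hA hB) hh
    refine ⟨h ⁻¹' B, fun x hx => ?_, ?_⟩
    · rw [← mem_img h, e1]; exact Or.inr hx
    · apply h.injective.image_injective
      rw [img_der, image_preimage_eq _ h.surjective, ← sdiff_sdiff_right_self, ← hZ, img_diff,
        img_der, e1, e2, derivedSet_union, hZ]
      ext x
      simp only [Set.mem_sdiff, mem_union]
      tauto
  · refine ⟨∅, empty_subset _, ?_⟩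
    rw [der_finite finite_empty, eq_comm, ← subset_empty_iff, ← hS.lim_empty hB']
    intro p hp B0 h1 h2
    obtain ⟨h, hh⟩ := hS.glueE (Eqv.rfl' (A ∪ Z)) (hS.eqv_cd hB' (hB'.mono h1 h2))
      (sp _ _ hA hB hAB disjoint_sdiff_left)
      (sp _ _ hA (h1.trans hB) (hAB.mono_right h1) (disjoint_sdiff_left.mono_right (der_mono h1)))
    rw [union_right_comm, union_right_comm A Z] at hh
    obtain ⟨e1, e2⟩ := spl h (A ∪ B) (A ∪ B0) subset_union_left (union_subset hA hB)
      subset_union_left (union_subset hA (h1.trans hB)) hh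
    have hfin : (h '' B \ B0).Finite := by
      by_contra hinf
      refine hab ⟨_, fun x hx => ?_, hinf, ?_⟩
      · exact (show x ∈ A ∪ B0 from e1 ▸ image_mono subset_union_right hx.1).resolve_right hx.2
      · refine Disjoint.mono_right (der_mono sdiff_subset) ?_
        rw [← img_der, ← e2]
        exact (disjoint_image_iff h.injective).2 disjoint_sdiff_left
    refine der_sub_of_fin hfin ?_
    obtain ⟨q, rfl⟩ := h.surjective p
    have q1 : q ∈ derivedSet (A ∪ B) := by
      rw [← mem_img h, img_der, e1]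
      exact der_mono subset_union_left hp.1
    have q2 : q ∉ Z := by
      rw [← mem_img h, e2]
      exact fun h' => h'.2 hp.2
    rw [← img_der, mem_img]
    rw [derivedSet_union] at q1
    by_contra q3
    exact q2 ⟨q1.resolve_right q3, q3⟩

lemma Thin.meet [Infinite S] (hS : Thin S) {D A B : Set S} (hD : CD D) (hA : A ⊆ D) (hB : B ⊆ D) :
    ∃ A1 ⊆ A, derivedSet A1 = derivedSet A ∩ derivedSet B := by
  obtain ⟨A1, h1, h2⟩ := hS.meet0 hD (sdiff_subset.trans hA) hB (disjoint_sdiff_left (t := A))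
  refine ⟨A1 ∪ A ∩ B, union_subset (h1.trans sdiff_subset) inter_subset_left, ?_⟩
  rw [derivedSet_union, h2]
  refine Subset.antisymm (union_subset (inter_subset_inter_left _ (der_mono sdiff_subset))
    (subset_inter (der_mono inter_subset_left) (der_mono inter_subset_right))) fun x hx => ?_
  by_cases h : x ∈ derivedSet (A \ B)
  · exact Or.inl ⟨h, hx.2⟩
  · exact Or.inr (der_inter hx.1 h)

end Pool.Agent.Lib.MP_52f683_gt
end

-- part Pool.Agent.Lib.MP_52f683_gt.Closed
section

set_option autoImplicit false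
set_option linter.unusedSectionVars false

open Set Topology Filter

namespace Pool.Agent.Lib.MP_52f683_gt

variable {S : Type*} [TopologicalSpace S] [T1Space S]

lemma sp_single {a b : S} (h : a ≠ b) : Sp ({a} : Set S) {b} := by
  simp [Sp, h, h.symm]

lemma Thin.pair (hS : Thin S) {a b c d : S} (h1 : a ≠ b) (h2 : c ≠ d) :
    ∃ h : S ≃ₜ S, (h a = c ∧ h b = d) ∨ (h a = d ∧ h b = c) := by
  have e : ∀ x y : S, Eqv ({x} : Set S) {y} := fun x y =>
    (hS.homog x y).imp fun g hg => by simp [hg]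
  obtain ⟨h, hh⟩ := hS.glueE (e a c) (e b d) (sp_single h1) (sp_single h2)
  refine ⟨h, ?_⟩
  rw [singleton_union, singleton_union, image_pair, pair_eq_pair_iff] at hh
  exact hh

/-- an invariant relation with a sink and a source in discrete sets relates all pairs -/
lemma Thin.all_pairs (hS : Thin S) (R : S → S → Prop)
    (hR : ∀ (h : S ≃ₜ S) x y, R x y → R (h x) (h y))
    {D1 D2 : Set S} {p q : S} (h1 : CD D1) (h2 : CD D2) (hp : p ∈ D1) (hq : q ∈ D2)
    (hp' : ∀ z ∈ D1, z ≠ p → R z p) (hq' : ∀ z ∈ D2, z ≠ q → R q z) {x y : S} (hxy : x ≠ y) :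
    R x y := by
  by_contra hn
  have asym : ∀ a b, a ≠ b → R a b → R b a → False := by
    intro a b hab r1 r2
    obtain ⟨h, ⟨rfl, rfl⟩ | ⟨rfl, rfl⟩⟩ := hS.pair hab hxy
    · exact hn (hR h _ _ r1)
    · exact hn (hR h _ _ r2)
  obtain ⟨M, s, -, hs, hsM, anti, hQ⟩ := chain (T := {A : Set S // A ⊆ D1 ∧ CD A})
    ⟨D1, subset_rfl, h1⟩ Subtype.val (fun _ M _ s => ∀ z ∈ M.1, z ≠ s → R z s) (by
      rintro n ⟨A, hA1, hA⟩
      obtain ⟨h, hh⟩ := hS.eqv_cd h1 hA
      refine ⟨⟨A \ {h p}, sdiff_subset.trans hA1,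
        hA.mono sdiff_subset (hA.inf.sdiff (finite_singleton _))⟩, h p, sdiff_subset,
        hh ▸ mem_image_of_mem _ hp, fun h => h.2 rfl, ?_⟩
      subst hh
      rintro _ ⟨z, hz, rfl⟩ hne
      exact hR h _ _ (hp' z hz fun e => hne (by rw [e])))
  have hY : CD (range s) := h1.mono (by rintro _ ⟨n, rfl⟩; exact (M n).2.1 (hsM n))
    (infinite_range_of_injective hs)
  obtain ⟨h, hh⟩ := hS.eqv_cd h2 hY
  obtain ⟨k, hk⟩ : h q ∈ range s := hh ▸ mem_image_of_mem _ hq
  obtain ⟨z, hz, hz'⟩ : s (k + 1) ∈ h '' D2 := hh ▸ mem_range_self _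
  have ne : s (k + 1) ≠ s k := fun e => by simpa using hs e
  refine asym _ _ ne (hQ k _ (anti (Nat.le_succ k) (hsM (k + 1))) ne) ?_
  rw [hk, ← hz']
  exact hR h _ _ (hq' z hz fun e => ne (by rw [hk, ← hz', e]))

lemma cl_disj {A B : Set S} (h : Sp A B) (h' : Disjoint (derivedSet A) (derivedSet B)) :
    Disjoint (closure A) (closure B) := by
  rw [closure_eq_self_union_derivedSet A]
  refine disjoint_union_left.2 ⟨h.1, ?_⟩
  rw [closure_eq_self_union_derivedSet B]
  exact disjoint_union_right.2 ⟨h.2.symm.mono_left der_sub_cl, h'⟩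

/-- the points that are the only accumulation point in `T` of some subset of `T` -/
def Mu (T : Set S) : Set S := {z | ∃ O ⊆ T, derivedSet O ∩ T = {z}}

lemma Mu.img (h : S ≃ₜ S) {T : Set S} {z : S} (hz : z ∈ Mu T) : h z ∈ Mu (h '' T) := by
  obtain ⟨O, h1, h2⟩ := hz
  exact ⟨h '' O, image_mono h1, by rw [← img_der, ← img_inter, h2, image_singleton]⟩

lemma mu_img (h : S ≃ₜ S) {T : Set S} {z : S} : h z ∈ Mu (h '' T) ↔ z ∈ Mu T :=
  ⟨fun hz => by simpa [image_image] using Mu.img h.symm hz, Mu.img h⟩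

lemma mu_union {U V : Set S} (h : Sp U V) {z : S} (hz : z ∈ U) : z ∈ Mu (U ∪ V) ↔ z ∈ Mu U := by
  constructor
  · rintro ⟨O, h1, h2⟩
    have hz' : z ∈ derivedSet O ∩ (U ∪ V) := h2 ▸ mem_singleton z
    refine ⟨O ∩ U, inter_subset_right, Subset.antisymm (fun y hy => ?_) ?_⟩
    · rw [← h2]
      exact ⟨der_mono inter_subset_left hy.1, Or.inl hy.2⟩
    · rintro _ rfl
      refine ⟨der_inter hz'.1 fun h' => disjoint_left.1 h.1 hz (der_sub_cl (der_mono ?_ h')), hz⟩
      exact fun y hy => (h1 hy.1).resolve_left hy.2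
  · rintro ⟨O, h1, h2⟩
    refine ⟨O, h1.trans subset_union_left, ?_⟩
    rw [inter_union_distrib_left, h2, (h.2.symm.mono_left
      (der_sub_cl.trans (closure_mono h1))).inter_eq, union_empty]

lemma der_union_left {U V : Set S} (h : Sp U V) {z : S} (hz : z ∈ U) :
    z ∈ derivedSet (U ∪ V) ↔ z ∈ derivedSet U := by
  rw [derivedSet_union]
  exact ⟨fun h' => h'.resolve_right fun h'' => disjoint_left.1 h.1 hz (der_sub_cl h''), Or.inl⟩

section

variable [Infinite S] (hS : Thin S) (H : ∀ D : Set S, CD D → (derivedSet D).Nonempty)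
include hS H

lemma Thin.der_inf {D : Set S} (hD : CD D) : (derivedSet D).Infinite := by
  intro hf
  obtain ⟨B, h1, h2, h3⟩ := hS.shrink hD hf.countable
  obtain ⟨x, hx⟩ := H B h2
  exact disjoint_left.1 h3 (der_mono h1 hx) hx

lemma Thin.der_inf' {C : Set S} (hC : IsClosed C) (h : C.Infinite) : (derivedSet C).Infinite := by
  obtain ⟨E, h1, h2⟩ := hS.exists_cd_closed hC h
  exact (hS.der_inf H h2).mono (der_mono h1)

lemma Thin.sep3 {x y : S} (hxy : x ≠ y) :
    ∃ E, CD E ∧ x ∈ derivedSet (derivedSet (derivedSet E)) ∧ y ∉ closure E := by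
  obtain ⟨D, -, hD⟩ := hS.exists_cd_closed isClosed_univ (infinite_univ (α := S))
  have h3 := hS.der_inf' H (isClosed_derivedSet _)
    (hS.der_inf' H (isClosed_derivedSet _) (hS.der_inf H hD))
  obtain ⟨p, hp⟩ := nonempty_compl.2 (hS.cl_ne hD)
  obtain ⟨q, hq⟩ := h3.nonempty
  obtain ⟨R1, a1, a2⟩ := hS.exists_cd_closed (isClosed_derivedSet _) h3
  obtain ⟨R2, b1, b2⟩ := hS.exists_cd_compl isClosed_closure (hS.cl_ne hD)
  obtain ⟨R3, c1, c2, c3⟩ := hS.shrink b2 (countable_singleton q)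
  have a3 : R1 ⊆ closure D := a1.trans (der_der.trans (der_der.trans der_sub_cl))
  refine hS.all_pairs
    (fun x y => ∃ E, CD E ∧ x ∈ derivedSet (derivedSet (derivedSet E)) ∧ y ∉ closure E) ?_
    (a2.insert fun h => hp (der_sub_closed isClosed_closure a3 h))
    (c2.insert (disjoint_singleton_left.1 c3)) (mem_insert _ _) (mem_insert _ _) ?_ ?_ hxy
  · rintro h x y ⟨E, e1, e2, e3⟩
    exact ⟨h '' E, e1.image h, by rwa [← img_der, ← img_der, ← img_der, mem_img],
      by rwa [← img_cl, mem_img]⟩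
  · exact fun z hz hne => ⟨D, hD, a1 (hz.resolve_left hne), hp⟩
  · exact fun z hz hne => ⟨D, hD, hq, b1 (c1 (hz.resolve_left hne))⟩

lemma Thin.b1_crowded {X : Set S} (hX : X ⊆ derivedSet X) (hne : X.Nonempty)
    (hd : closure X ≠ univ) : ∃ A B : Set S, CD A ∧ CD B ∧ Disjoint (closure A) (closure B) := by
  obtain ⟨x, hx⟩ := hne
  obtain ⟨w, hw⟩ := nonempty_compl.2 hd
  obtain ⟨E0, hE0, hw0, hx0⟩ := hS.sep3 H (x := w) (y := x) fun e => hw (e ▸ subset_closure hx)
  have hwE : w ∈ derivedSet (E0 \ closure X) := der_diff_cl (der_der (der_der hw0)) hw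
  set E := E0 \ closure X with hEdef
  have hE : CD E := hE0.mono sdiff_subset (inf_of_der hwE)
  set X1 := closure X \ closure E with hX1def
  have hX1 : X1 ⊆ derivedSet X1 := by
    intro z hz
    refine der_diff_cl ?_ hz.2
    rw [derivedSet_closure]
    exact closure_minimal hX (isClosed_derivedSet X) hz.1
  have hx1 : x ∈ X1 := ⟨subset_closure hx, fun h => hx0 (closure_mono sdiff_subset h)⟩
  have hcl : closure X1 ⊆ closure X := closure_minimal sdiff_subset isClosed_closure
  have sp : ∀ M ⊆ E, ∀ R ⊆ X1, Sp M R := fun M hM R hR =>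
    ⟨disjoint_left.2 fun z hz hz' => (hM hz).2 (hcl (closure_mono hR hz')),
      disjoint_left.2 fun z hz hz' => (hR hz).2 (closure_mono hM hz')⟩
  obtain ⟨R, hR1, hR⟩ := hS.exists_cd_diff isClosed_closure isClosed_closure (inf_of_der (hX1 hx1))
  refine ⟨E, R, hE, hR, cl_disj (sp E subset_rfl R hR1) ?_⟩
  by_contra hcon
  obtain ⟨M, hM1, hM2⟩ := hS.meet (hE.union_sp hR (sp E subset_rfl R hR1)) subset_union_left
    subset_union_right
  obtain ⟨z, hz⟩ := not_disjoint_iff.1 hcon
  have hM : CD M := hE.mono hM1 (inf_of_der (x := z) (hM2 ▸ hz))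
  obtain ⟨h, hh⟩ := hS.glueE (hS.eqv_cd hE hM) (Eqv.rfl' X1) (sp E subset_rfl X1 subset_rfl)
    (sp M hM1 X1 subset_rfl)
  have a1 : ∀ M ⊆ E, Disjoint M (derivedSet (M ∪ X1)) := fun M hM => disjoint_left.2
    fun z hz hz' => disjoint_left.1 hE.dsc (hM hz)
      (der_mono hM ((der_union_left (sp M hM X1 subset_rfl) hz).1 hz'))
  obtain ⟨e1, e2⟩ := split_img h hh (a1 E subset_rfl) (hX1.trans (der_mono subset_union_right))
    (a1 M hM1) (hX1.trans (der_mono subset_union_right))
  refine hw (hcl ?_)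
  rw [← mem_img h, img_cl, e2]
  rw [← mem_img h, img_der, e1, hM2] at hwE
  exact closure_mono hR1 (der_sub_cl hwE.2)

lemma Thin.b1 : ∃ A B : Set S, CD A ∧ CD B ∧ Disjoint (closure A) (closure B) := by
  by_contra hcon
  have b2 : ∀ A B : Set S, CD A → CD B → Sp A B → (derivedSet A ∩ derivedSet B).Nonempty := by
    intro A B hA hB h
    by_contra hn
    exact hcon ⟨A, B, hA, hB, cl_disj h (disjoint_iff_inter_eq_empty.2 (not_nonempty_iff_eq_empty.1 hn))⟩
  obtain ⟨x, y, hxy⟩ := exists_pair_ne S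
  obtain ⟨E1, h1, hx1, hy1⟩ := hS.sep3 H hxy
  obtain ⟨E2, h2, hy2, hx2⟩ := hS.sep3 H hxy.symm
  have loc : ∀ {E F : Set S} {z : S}, z ∈ derivedSet (derivedSet (derivedSet E)) →
      z ∉ closure F → z ∈ derivedSet (derivedSet (derivedSet (E \ closure F)) \ closure F) := by
    intro E F z hz hz'
    refine der_mono ?_ (der_diff_cl hz hz')
    intro a ha
    exact ⟨der_mono (fun b hb => der_diff_cl hb.1 hb.2) (der_diff_cl ha.1 ha.2), ha.2⟩
  have hx3 := loc hx1 hx2
  have hy3 := loc hy2 hy1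
  set A := E1 \ closure E2 with hAdef
  set C := E2 \ closure E1 with hCdef
  have hAc : closure A ⊆ closure E1 := closure_mono sdiff_subset
  have hCc : closure C ⊆ closure E2 := closure_mono sdiff_subset
  have hxA : x ∈ derivedSet A := der_der (der_der (der_mono sdiff_subset hx3))
  have hyC : y ∈ derivedSet C := der_der (der_der (der_mono sdiff_subset hy3))
  have hA : CD A := h1.mono sdiff_subset (inf_of_der hxA)
  have hC : CD C := h2.mono sdiff_subset (inf_of_der hyC)
  obtain ⟨R, hR1, hR⟩ := hS.exists_cd_diff (isClosed_derivedSet _) isClosed_closure (inf_of_der hy3)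
  have hI : ((derivedSet A \ derivedSet (derivedSet A)) \ closure E2).Infinite := by
    intro hf
    have hz := (inf_of_der hx3).nonempty
    refine hcon (hS.b1_crowded H (X := derivedSet (derivedSet A) \ closure E2) (fun z hz => ?_) hz
      fun h => hS.cl_ne hA (eq_univ_of_univ_subset (h ▸ closure_minimal
        (sdiff_subset.trans (der_der.trans der_sub_cl)) isClosed_closure)))
    refine der_sub_of_fin (hf.subset ?_) (der_diff_cl hz.1 hz.2)
    intro a ha
    exact ⟨⟨ha.1.1, fun h => ha.2 ⟨h, ha.1.2⟩⟩, ha.1.2⟩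
  obtain ⟨P, hP1, hPi, hPc⟩ : ∃ P ⊆ (derivedSet A \ derivedSet (derivedSet A)) \ closure E2,
      P.Infinite ∧ P.Countable := by
    obtain ⟨a, -, -, ha, haM, -⟩ := hotel hI id Function.injective_id
    exact ⟨range a, by rintro _ ⟨n, rfl⟩; exact haM n, infinite_range_of_injective ha,
      countable_range a⟩
  have hPA : P ⊆ derivedSet A := fun p hp => (hP1 hp).1.1
  have hP : CD P := ⟨hPi, hPc, disjoint_left.2 fun p hp hp' => (hP1 hp).1.2 (der_mono hPA hp')⟩
  obtain ⟨z, hz⟩ := H P hP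
  obtain ⟨R1, r1, hR1', r3⟩ := hS.shrink hR (countable_singleton z)
  have hRC : R1 ⊆ derivedSet C := fun r hr => der_der (hR1 (r1 hr)).1
  have spPR : Sp P R1 :=
    ⟨disjoint_left.2 fun p hp hp' => (hP1 hp).2
      (closure_minimal (hRC.trans (der_sub_cl.trans hCc)) isClosed_closure hp'),
     disjoint_left.2 fun p hp hp' => (hR1 (r1 hp)).2
      (closure_minimal (hPA.trans (der_sub_cl.trans hAc)) isClosed_closure hp')⟩
  obtain ⟨M, hM1, hM2⟩ := hS.meet (hP.union_sp hR1' spPR) subset_union_left subset_union_right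
  obtain ⟨z', hz'⟩ := b2 P R1 hP hR1' spPR
  have hM : CD M := hP.mono hM1 (inf_of_der (x := z') (hM2 ▸ hz'))
  obtain ⟨h, hh⟩ := hS.eqv_cd hP hM
  have hA2 := hA.image h
  have hM3 : ∀ m ∈ M, m ∈ derivedSet (h '' A) ∧ m ∉ derivedSet (derivedSet (h '' A)) := by
    intro m hm
    rw [← hh] at hm
    obtain ⟨p, hp, rfl⟩ := hm
    rw [← img_der, ← img_der, mem_img, mem_img]
    exact (hP1 hp).1
  have hα : ∀ m ∈ M, m ∈ derivedSet (A \ derivedSet (h '' A)) := fun m hm =>
    der_diff (hPA (hM1 hm)) (hM3 m hm).2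
  have hβ : ∀ m ∈ M, m ∈ derivedSet (h '' A \ derivedSet A) := fun m hm =>
    der_diff (hM3 m hm).1 (hP1 (hM1 hm)).1.2
  obtain ⟨m0, hm0⟩ := hM.inf.nonempty
  obtain ⟨B0, hB1, hB2⟩ := hS.meet
    ((hA2.mono sdiff_subset (inf_of_der (hβ m0 hm0))).union
      (hA.mono sdiff_subset (inf_of_der (hα m0 hm0)))
      (disjoint_sdiff_left.mono_right (der_mono sdiff_subset))
      (disjoint_sdiff_left.mono_right (der_mono sdiff_subset))) subset_union_left subset_union_right
  set B := B0 \ closure E2 with hBdef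
  have hMB : M ⊆ derivedSet B := fun m hm =>
    der_diff_cl (hB2 ▸ ⟨hβ m hm, hα m hm⟩) (hP1 (hM1 hm)).2
  have hBA : derivedSet B ⊆ derivedSet A := fun b hb =>
    der_mono sdiff_subset (hB2.subset (der_mono sdiff_subset hb)).2
  have hBh : B ⊆ h '' A := fun b hb => (hB1 hb.1).1
  obtain ⟨A3, hA3, hA3'⟩ := subset_image_iff.1 hBh
  have hPA3 : P ⊆ derivedSet A3 := fun p hp => by
    rw [← mem_img h, img_der, hA3']
    exact hMB (hh ▸ mem_image_of_mem _ hp)
  have hZ : closure (C ∪ R1) ⊆ closure E2 :=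
    closure_minimal (union_subset (subset_closure.trans hCc) (hRC.trans (der_sub_cl.trans hCc)))
      isClosed_closure
  have hZ' : Disjoint (C ∪ R1) (closure E1) :=
    disjoint_union_left.2 ⟨disjoint_sdiff_left, disjoint_left.2 fun r hr => (hR1 (r1 hr)).2⟩
  have key : ∀ B M : Set S, Disjoint B (derivedSet B) → Disjoint B (closure E2) →
      derivedSet B ⊆ derivedSet A → M ⊆ P → M ⊆ derivedSet B →
      Sp (B ∪ M) (C ∪ R1) ∧ Disjoint (B ∪ C) (derivedSet ((B ∪ C) ∪ (M ∪ R1))) ∧
        M ∪ R1 ⊆ derivedSet (B ∪ C) ∧ Disjoint M (derivedSet (derivedSet (B ∪ C))) ∧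
        R1 ⊆ derivedSet (derivedSet (B ∪ C)) := by
    intro B M k1 k2 k3 k4 k5
    have k6 : M ∪ R1 ⊆ derivedSet (B ∪ C) := by
      rw [derivedSet_union]; exact union_subset_union k5 hRC
    have k7 : Disjoint (C ∪ R1) (derivedSet B) :=
      hZ'.mono_right (k3.trans (der_sub_cl.trans hAc))
    refine ⟨⟨Disjoint.mono_right hZ (disjoint_union_left.2
      ⟨k2, disjoint_left.2 fun m hm => (hP1 (k4 hm)).2⟩), ?_⟩, ?_, k6, ?_, ?_⟩
    · rw [closure_eq_self_union_derivedSet]
      refine disjoint_union_right.2 ⟨disjoint_union_right.2 ⟨?_, k7.mono_right k5⟩,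
        k7.mono_right (der_union_sub k5)⟩
      exact (k2.mono_right (subset_closure.trans hZ)).symm
    · refine Disjoint.mono_right (der_union_sub k6) ?_
      rw [derivedSet_union]
      exact disjoint_union_left.2 ⟨disjoint_union_right.2
        ⟨k1, k2.mono_right (der_sub_cl.trans hCc)⟩,
        disjoint_union_right.2 ⟨k7.mono_left subset_union_left, hC.dsc⟩⟩
    · rw [derivedSet_union, derivedSet_union]
      exact disjoint_union_right.2
        ⟨disjoint_left.2 fun m hm hm' => (hP1 (k4 hm)).1.2 (der_mono k3 hm'),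
         disjoint_left.2 fun m hm hm' => (hP1 (k4 hm)).2 (hCc (der_sub_cl (der_der hm')))⟩
    · exact fun r hr => der_mono (der_mono subset_union_right) (hR1 (r1 hr)).1
  obtain ⟨s1, s2, s3, s4, s5⟩ := key A3 P (hA.dsc.mono hA3 (der_mono hA3))
    (disjoint_sdiff_left.mono_left hA3) (der_mono hA3) subset_rfl hPA3
  obtain ⟨t1, t2, t3, t4, t5⟩ := key B M (hA2.dsc.mono hBh (der_mono hBh))
    disjoint_sdiff_left hBA hM1 hMB
  obtain ⟨k, hk⟩ := hS.glueE ⟨h, by rw [image_union, hA3', hh]⟩ (Eqv.rfl' (C ∪ R1)) s1 t1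
  rw [union_union_union_comm, union_union_union_comm B] at hk
  obtain ⟨e1, e2⟩ := split_img k hk s2 (s3.trans (der_mono subset_union_left)) t2
    (t3.trans (der_mono subset_union_left))
  have e3 : ∀ v, k v ∈ derivedSet (derivedSet (B ∪ C)) ↔ v ∈ derivedSet (derivedSet (A3 ∪ C)) :=
    fun v => by rw [← e1, ← img_der, ← img_der, mem_img]
  have e4 : k '' P ⊆ M := by
    rintro _ ⟨p, hp, rfl⟩
    exact (show k p ∈ M ∪ R1 from e2 ▸ mem_image_of_mem _ (Or.inl hp)).resolve_right
      fun h' => disjoint_left.1 s4 hp ((e3 p).1 (t5 h'))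
  have e5 : R1 ⊆ k '' R1 := by
    intro r hr
    obtain ⟨v, hv, rfl⟩ : r ∈ k '' (P ∪ R1) := e2 ▸ Or.inr hr
    exact mem_image_of_mem _ (hv.resolve_left fun h' => disjoint_left.1 s4 h' ((e3 v).1 (t5 hr)))
  refine disjoint_singleton_left.1 r3 ?_
  rw [← mem_img k, img_der] at hz ⊢
  exact der_mono e5 (hM2.subset (der_mono e4 hz)).2

lemma Thin.all_disj {D A B : Set S} (hD : CD D) (hA : A ⊆ D) (hB : B ⊆ D) (hAB : Disjoint A B) :
    Disjoint (derivedSet A) (derivedSet B) := by
  obtain ⟨A0, B0, hA0, hB0, h0⟩ := hS.b1 H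
  have hU := hA0.union_sp hB0 ⟨h0.mono_left subset_closure, h0.symm.mono_left subset_closure⟩
  obtain ⟨M, -, -, -, -, anti, hQ⟩ := chain (T := {A : Set S // A ⊆ D ∧ CD A})
    ⟨D, subset_rfl, hD⟩ Subtype.val
    (fun _ M N _ => ∃ A ⊆ M.1, CD A ∧ Disjoint (closure A) (closure N.1)) (by
      rintro n ⟨F, hF1, hF⟩
      obtain ⟨h, rfl⟩ := hS.eqv_cd hU hF
      obtain ⟨x, hx⟩ := hA0.inf.nonempty
      refine ⟨⟨h '' B0, (image_mono subset_union_right).trans hF1, hB0.image h⟩, h x,
        image_mono subset_union_right, mem_image_of_mem _ (Or.inl hx), ?_, h '' A0,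
        image_mono subset_union_left, hA0.image h, ?_⟩
      · rw [mem_img]
        exact fun h' => disjoint_left.1 h0 (subset_closure hx) (subset_closure h')
      · rw [← img_cl, ← img_cl]
        exact (disjoint_image_iff h.injective).2 h0)
  choose a ha1 ha2 ha3 using hQ
  have haD : ∀ n, a n ⊆ D := fun n => (ha1 n).trans (M n).2.1
  choose y hy using fun n => H _ (ha2 n)
  have hy' : ∀ n, y n ∈ closure (a n) := fun n => der_sub_cl (hy n)
  have sep : ∀ n, Disjoint (closure (a n)) (closure (⋃ m ∈ ({n}ᶜ : Set ℕ), closure (a m))) := by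
    intro n
    have : (⋃ m ∈ ({n}ᶜ : Set ℕ), closure (a m)) ⊆
        (⋃ m ∈ Iio n, closure (a m)) ∪ closure (M (n + 1)).1 := by
      refine iUnion₂_subset fun m hm => ?_
      rcases lt_or_gt_of_ne (show m ≠ n from hm) with h | h
      · exact (subset_biUnion_of_mem (u := fun m => closure (a m)) (mem_Iio.2 h)).trans
          subset_union_left
      · exact (closure_mono ((ha1 m).trans (anti (Nat.succ_le_of_lt h)))).trans subset_union_right
    refine Disjoint.mono_right (closure_minimal this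
      (((finite_Iio n).isClosed_biUnion fun _ _ => isClosed_closure).union isClosed_closure)) ?_
    refine disjoint_union_right.2 ⟨disjoint_iUnion₂_right.2 fun m hm => ?_, ha3 n⟩
    exact ((ha3 m).mono_right (closure_mono ((ha1 n).trans (anti (Nat.succ_le_of_lt hm))))).symm
  have sep' : ∀ {n : ℕ} {z : S} {O : Set S}, z ∈ closure (a n) →
      O ⊆ ⋃ m ∈ ({n}ᶜ : Set ℕ), closure (a m) → z ∉ closure O := fun hz hO h =>
    disjoint_left.1 (sep _) hz (closure_mono hO h)
  have ne : ∀ {m n : ℕ} {z : S}, z ∈ closure (a m) → z ∈ closure (a n) → m = n := by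
    intro m n z h1 h2
    by_contra hne
    exact sep' h2 (subset_biUnion_of_mem (u := fun m => closure (a m)) hne) (subset_closure h1)
  have main : ∀ N : Set ℕ, Disjoint (closure (y '' N)) (closure (y '' Nᶜ)) := by
    intro N
    let T1 := ⋃ n ∈ N, insert (y n) (a n)
    let T2 := ⋃ n ∈ Nᶜ, closure (a n)
    have m1 : ∀ z ∈ T1, ∃ n ∈ N, z ∈ closure (a n) ∧ (z = y n ∨ z ∈ a n) := fun z hz => by
      obtain ⟨n, hn, hz⟩ := mem_iUnion₂.1 hz
      exact ⟨n, hn, hz.elim (fun e => e ▸ hy' n) fun h => subset_closure h, hz⟩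
    have m2 : ∀ z ∈ T2, ∃ n ∉ N, z ∈ closure (a n) := fun z hz => by
      obtain ⟨n, hn, hz⟩ := mem_iUnion₂.1 hz
      exact ⟨n, hn, hz⟩
    have c1 : T1 ⊆ closure D := fun z hz => by
      obtain ⟨n, -, h, -⟩ := m1 z hz
      exact closure_mono (haD n) h
    have c2 : T2 ⊆ closure D := fun z hz => by
      obtain ⟨n, -, h⟩ := m2 z hz
      exact closure_mono (haD n) h
    have sp : Sp T1 T2 := by
      refine ⟨disjoint_left.2 fun z hz => ?_, disjoint_left.2 fun z hz => ?_⟩
      · obtain ⟨n, hn, h, -⟩ := m1 z hz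
        refine sep' h fun w hw => ?_
        obtain ⟨m, hm, hw⟩ := m2 w hw
        exact mem_biUnion (x := m) (fun e => hm (e ▸ hn)) hw
      · obtain ⟨n, hn, h⟩ := m2 z hz
        refine sep' h fun w hw => ?_
        obtain ⟨m, hm, hw, -⟩ := m1 w hw
        exact mem_biUnion (x := m) (fun e => hn (e ▸ hm)) hw
    have g0 : ∀ n ∈ N, y n ∈ Mu T1 := by
      intro n hn
      refine ⟨a n, fun w hw => mem_biUnion hn (Or.inr hw), Subset.antisymm (fun w hw => ?_) ?_⟩
      · obtain ⟨m, -, h1, h2⟩ := m1 w hw.2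
        obtain rfl := ne h1 (der_sub_cl hw.1)
        exact h2.resolve_right fun h => disjoint_left.1 (ha2 m).dsc h hw.1
      · rintro _ rfl
        exact ⟨hy n, mem_biUnion hn (Or.inl rfl)⟩
    have g1 : ∀ z ∈ T1, z ∈ derivedSet T1 → z ∈ Mu T1 := by
      intro z hz hz'
      obtain ⟨n, hn, -, rfl | h⟩ := m1 z hz
      · exact g0 n hn
      · exact (disjoint_left.1 hD.dsc (haD n h) (derivedSet_closure D ▸ der_mono c1 hz')).elim
    have g2 : ∀ z ∈ T2, z ∉ Mu T2 := by
      rintro z hz ⟨O, hO1, hO2⟩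
      obtain ⟨n, hn, h⟩ := m2 z hz
      have hz1 : z ∈ derivedSet (O ∩ closure (a n)) := by
        refine der_inter (hO2.symm.subset (mem_singleton z)).1 fun h' => sep' h (fun w hw => ?_)
          (der_sub_cl h')
        obtain ⟨m, -, hw'⟩ := m2 w (hO1 hw.1)
        exact mem_biUnion (x := m) (fun e => hw.2 (e ▸ hw')) hw'
      have hz2 : derivedSet (O ∩ closure (a n)) ⊆ {z} := fun w hw => hO2 ▸
        ⟨der_mono inter_subset_left hw,
          mem_biUnion hn (der_sub_closed isClosed_closure inter_subset_right hw)⟩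
      obtain ⟨b, -, -, hb, hbM, -⟩ := hotel ((inf_of_der hz1).sdiff (finite_singleton z)) id
        Function.injective_id
      have hr : range b ⊆ (O ∩ closure (a n)) \ {z} := by rintro _ ⟨i, rfl⟩; exact hbM i
      have hr' := (der_mono (hr.trans sdiff_subset)).trans hz2
      exact hS.der_inf H ⟨infinite_range_of_injective hb, countable_range b,
        disjoint_left.2 fun w hw hw' => (hr hw).2 (hr' hw')⟩ ((finite_singleton z).subset hr')
    obtain ⟨h1, e1⟩ := hS.eqv_cd hD hA0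
    obtain ⟨h2, e2⟩ := hS.eqv_cd hD hB0
    have d1 : h1 '' T1 ⊆ closure A0 := by rw [← e1, ← img_cl]; exact image_mono c1
    have d2 : h2 '' T2 ⊆ closure B0 := by rw [← e2, ← img_cl]; exact image_mono c2
    have sp' : Sp (h1 '' T1) (h2 '' T2) :=
      ⟨h0.mono d1 (closure_minimal d2 isClosed_closure),
        h0.symm.mono d2 (closure_minimal d1 isClosed_closure)⟩
    obtain ⟨k, hk⟩ := hS.glueE ⟨h1, rfl⟩ ⟨h2, rfl⟩ sp sp'
    rw [← disjoint_image_iff k.injective, img_cl, img_cl]
    refine h0.mono (closure_minimal ?_ isClosed_closure) (closure_minimal ?_ isClosed_closure)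
    · rintro _ ⟨_, ⟨n, hn, rfl⟩, rfl⟩
      have i1 : y n ∈ T1 := mem_biUnion hn (Or.inl rfl)
      have i2 := (mu_img k).2 ((mu_union sp i1).2 (g0 n hn))
      rw [hk] at i2
      refine d1 ((hk.subset (mem_image_of_mem _ (Or.inl i1))).resolve_right ?_)
      rintro ⟨z, hz, e⟩
      rw [union_comm, mu_union sp'.symm ⟨z, hz, e⟩, ← e, mu_img] at i2
      exact g2 z hz i2
    · rintro _ ⟨_, ⟨n, hn, rfl⟩, rfl⟩
      have i1 : y n ∈ T2 := mem_biUnion hn (hy' n)
      have i2 : y n ∈ derivedSet (T1 ∪ T2) := der_mono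
        (fun w hw => Or.inr (mem_biUnion hn (subset_closure hw))) (hy n)
      rw [← mem_img k, img_der, hk] at i2
      refine d2 ((hk.subset (mem_image_of_mem _ (Or.inr i1))).resolve_left ?_)
      rintro ⟨z, hz, e⟩
      rw [der_union_left sp' ⟨z, hz, e⟩, ← e, ← img_der, mem_img] at i2
      have i3 := (mu_union sp' ⟨z, hz, rfl⟩).2 ((mu_img h1).2 (g1 z hz i2))
      rw [e, ← hk, mu_img, union_comm, mu_union sp.symm i1] at i3
      exact g2 _ i1 i3
  have hY : CD (range y) := by
    refine ⟨infinite_range_of_injective fun m n e => ne (hy' m) (e ▸ hy' n), countable_range y,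
      disjoint_left.2 ?_⟩
    rintro _ ⟨n, rfl⟩ h
    refine sep' (hy' n) ?_ (der_sub_cl (der_diff h (by
      rw [der_finite (finite_singleton (y n))]; exact id)))
    rintro _ ⟨⟨m, rfl⟩, hm⟩
    exact mem_biUnion (x := m) (fun e => hm (by rw [show m = n from e]; rfl)) (hy' m)
  obtain ⟨h, hh⟩ := hS.eqv_cd hD hY
  rw [← disjoint_image_iff h.injective, img_der, img_der]
  refine (main (y ⁻¹' (h '' A))).mono (der_sub_cl.trans (closure_mono fun z hz => ?_))
    (der_sub_cl.trans (closure_mono fun z hz => ?_))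
  · obtain ⟨n, rfl⟩ : z ∈ range y := hh ▸ image_mono hA hz
    exact mem_image_of_mem _ hz
  · obtain ⟨n, rfl⟩ : z ∈ range y := hh ▸ image_mono hB hz
    exact mem_image_of_mem _ fun h' =>
      disjoint_left.1 ((disjoint_image_iff h.injective).2 hAB) h' hz

lemma Thin.final : False := by
  obtain ⟨D, -, hD⟩ := hS.exists_cd_closed isClosed_univ (infinite_univ (α := S))
  obtain ⟨e0, -, -, he0, heD, -⟩ := hotel hD.inf id Function.injective_id
  let a : ℕ → Set S := fun n => range fun m => e0 (Nat.pair n m)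
  have haD : ∀ n, a n ⊆ D := by rintro n _ ⟨m, rfl⟩; exact heD _
  have hai : ∀ n, (a n).Infinite := fun n =>
    infinite_range_of_injective fun m m' e => (Nat.pair_eq_pair.1 (he0 e)).2
  have had : ∀ {m n : ℕ} {z : S}, z ∈ a m → z ∈ a n → m = n := by
    rintro m n _ ⟨i, rfl⟩ ⟨j, e⟩
    exact (Nat.pair_eq_pair.1 (he0 e)).1.symm
  have dj : ∀ {B C : Set S}, B ⊆ D → C ⊆ D → (B ∩ C).Finite →
      Disjoint (derivedSet B) (derivedSet C) := by
    intro B C hB hC hf
    refine (hS.all_disj H hD hB (sdiff_subset (t := B)) disjoint_sdiff_right).mono_right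
      (der_sub_of_fin (hf.subset ?_))
    intro z hz
    exact ⟨by_contra fun h => hz.2 ⟨hC hz.1, h⟩, hz.1⟩
  let Y0 : Set S := ⋃ B ∈ {B | B ⊆ D ∧ ∀ n, (B ∩ a n).Finite}, derivedSet B
  let X : (ℕ → ℕ) → Option ℕ → Set S := fun σ i => i.elim Y0 fun n => derivedSet (a (σ n))
  have st : ∀ σ, ∀ z ∈ ⋃ i, X σ i, ∃ B ⊆ D, z ∈ derivedSet B ∧ derivedSet B ⊆ ⋃ i, X σ i := by
    intro σ z hz
    obtain ⟨_ | n, hi⟩ := mem_iUnion.1 hz
    · obtain ⟨B, hB, hz⟩ := mem_iUnion₂.1 hi
      exact ⟨B, hB.1, hz, (subset_biUnion_of_mem hB).trans (subset_iUnion (X σ) none)⟩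
    · exact ⟨a (σ n), haD _, hi, subset_iUnion (X σ) (some n)⟩
  have sep : ∀ σ, Function.Injective σ →
      ∀ i, Disjoint (X σ i) (closure (⋃ j ∈ ({i}ᶜ : Set (Option ℕ)), X σ j)) := by
    intro σ hσ i
    refine disjoint_left.2 fun z hz hz' => ?_
    obtain ⟨B, hB, hzB, hB'⟩ : ∃ B ⊆ D, z ∈ derivedSet B ∧
        ∀ j ≠ i, X σ j ⊆ derivedSet (D \ B) := by
      have aux : ∀ {B C : Set S}, C ⊆ D → (C ∩ B).Finite → derivedSet C ⊆ derivedSet (D \ B) :=
        fun hC hf => der_sub_of_fin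
          (hf.subset fun z hz => mem_inter hz.1 (by_contra fun h => hz.2 ⟨hC hz.1, h⟩))
      rcases i with _ | n
      · obtain ⟨B, hB, hz⟩ := mem_iUnion₂.1 hz
        refine ⟨B, hB.1, hz, ?_⟩
        rintro (_ | m) hj
        · exact absurd rfl hj
        · exact aux (haD _) (inter_comm _ _ ▸ hB.2 _)
      · refine ⟨a (σ n), haD _, hz, ?_⟩
        rintro (_ | m) hj
        · exact iUnion₂_subset fun B hB => aux hB.1 (hB.2 _)
        · exact aux (haD _) (finite_empty.subset fun w hw => hj (by rw [hσ (had hw.1 hw.2)]))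
    exact disjoint_left.1 (hS.all_disj H hD hB sdiff_subset disjoint_sdiff_right) hzB
      (closure_minimal (iUnion₂_subset hB') (isClosed_derivedSet _) hz')
  obtain ⟨h, hh⟩ := hS.glueF (X id) (X fun n => 2 * n + 1) (by
      rintro (_ | n)
      · exact Eqv.rfl' _
      · obtain ⟨g, hg⟩ := hS.eqv_cd (hD.mono (haD n) (hai n)) (hD.mono (haD (2 * n + 1)) (hai _))
        exact ⟨g, by simp only [X, Option.elim, id]; rw [img_der, hg]⟩)
    (sep id Function.injective_id) (sep _ fun m n h => by simpa using h)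
  set Y := ⋃ i, X (fun n => 2 * n + 1) i with hYdef
  have hE := hD.image h
  have key : Y ⊆ derivedSet (D ∩ h '' D) := by
    intro z hz
    obtain ⟨B, hB, hzB, hBY⟩ := st _ z hz
    obtain ⟨C, hC, hzC, hCY⟩ : ∃ C ⊆ h '' D, z ∈ derivedSet C ∧ derivedSet C ⊆ Y := by
      rw [← hh] at hz
      obtain ⟨w, hw, rfl⟩ := hz
      obtain ⟨C, h1, h2, h3⟩ := st _ w hw
      exact ⟨h '' C, image_mono h1, by rwa [← img_der, mem_img],
        by rw [← img_der, ← hh]; exact image_mono h3⟩
    have hYD : Y ⊆ derivedSet D := fun w hw => by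
      obtain ⟨B, h1, h2, -⟩ := st _ w hw
      exact der_mono h1 h2
    have hYE : Y ⊆ derivedSet (h '' D) := by
      rw [← hh, ← img_der]
      refine image_mono fun w hw => ?_
      obtain ⟨B, h1, h2, -⟩ := st _ w hw
      exact der_mono h1 h2
    have aux : ∀ {D E B C : Set S}, CD D → CD E → B ⊆ D → C ⊆ E → z ∈ derivedSet B →
        z ∈ derivedSet C → derivedSet B ⊆ derivedSet E → z ∉ derivedSet (D ∩ E) →
        z ∈ derivedSet (C \ closure D) := by
      intro D E B C hD hE hB hC hzB hzC hBE hn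
      refine der_mono ?_
        (der_diff (der_diff hzC hn) (B := derivedSet (D \ B)) fun h' =>
          disjoint_left.1 (hS.all_disj H hD hB sdiff_subset disjoint_sdiff_right) hzB (der_der h'))
      intro w hw
      refine ⟨hw.1.1, fun h' => ?_⟩
      rcases mem_cl_iff.1 h' with h' | h'
      · exact hw.1.2 ⟨h', hC hw.1.1⟩
      · exact hw.2 (der_diff h' fun h'' => disjoint_left.1 hE.dsc (hC hw.1.1) (hBE h''))
    by_contra hn
    have z1 := aux hD hE hB hC hzB hzC (hBY.trans hYE) hn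
    have z2 := aux hE hD hC hB hzC hzB (hCY.trans hYD) (by rwa [inter_comm])
    have sp : Sp (C \ closure D) (B \ closure (h '' D)) :=
      ⟨disjoint_sdiff_left.mono_right (closure_mono (sdiff_subset.trans hB)),
        disjoint_sdiff_left.mono_right (closure_mono (sdiff_subset.trans hC))⟩
    exact disjoint_left.1 (hS.all_disj H
      ((hE.mono (sdiff_subset.trans hC) (inf_of_der z1)).union_sp
        (hD.mono (sdiff_subset.trans hB) (inf_of_der z2)) sp) subset_union_left subset_union_right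
      (sp.1.mono_right subset_closure)) z1 z2
  have mad : ∀ B ⊆ D, B.Infinite → ∃ z ∈ derivedSet B, z ∈ ⋃ i, X id i := by
    intro B hB hB'
    by_cases hf : ∀ n, (B ∩ a n).Finite
    · obtain ⟨z, hz⟩ := H B (hD.mono hB hB')
      exact ⟨z, hz, mem_iUnion.2 ⟨none, mem_biUnion (x := B) ⟨hB, hf⟩ hz⟩⟩
    · obtain ⟨n, hn⟩ := not_forall.1 hf
      obtain ⟨z, hz⟩ := H _ (hD.mono (inter_subset_left.trans hB) hn)
      exact ⟨z, der_mono inter_subset_left hz,
        mem_iUnion.2 ⟨some n, der_mono inter_subset_right hz⟩⟩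
  have fin : ∀ n, (a (2 * n) ∩ h '' D).Finite := by
    intro n
    by_contra hinf
    obtain ⟨B, hB, hB'⟩ := subset_image_iff.1 (inter_subset_right (s := a (2 * n)) (t := h '' D))
    obtain ⟨z, hz, hz'⟩ := mad B hB (Infinite.of_image h (hB' ▸ hinf))
    rw [← mem_img h, img_der, hB'] at hz
    rw [← mem_img h, hh] at hz'
    have hz2 := der_mono inter_subset_left hz
    obtain ⟨_ | m, hi⟩ := mem_iUnion.1 hz'
    · obtain ⟨C, hC, hi⟩ := mem_iUnion₂.1 hi
      exact disjoint_left.1 (dj hC.1 (haD _) (hC.2 _)) hi hz2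
    · exact disjoint_left.1 (dj (haD _) (haD _)
        (finite_empty.subset fun w hw => by
          have : 2 * m + 1 = 2 * n := had hw.1 hw.2
          exact absurd this (by omega))) hi hz2
  choose b hb using fun n => ((hai (2 * n)).sdiff (fin n)).nonempty
  have hbD : range b ⊆ D := by rintro _ ⟨n, rfl⟩; exact haD _ (hb n).1
  obtain ⟨z, hz⟩ := H _ (hD.mono hbD (infinite_range_of_injective fun m n e => by
    have := had (hb m).1 (e ▸ (hb n).1); omega))
  refine disjoint_left.1 (dj hbD inter_subset_left (finite_empty.subset ?_)) hz (key ?_)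
  · rintro _ ⟨⟨n, rfl⟩, hn⟩
    exact (hb n).2 ⟨(hb n).1, hn.2⟩
  · refine mem_iUnion.2 ⟨none, mem_biUnion (x := range b) ⟨hbD, fun n => ?_⟩ hz⟩
    refine (finite_singleton (b (n / 2))).subset ?_
    rintro _ ⟨⟨m, rfl⟩, hm⟩
    have := had (hb m).1 hm
    rw [show n / 2 = m by omega]
    rfl

end

/-- countable discrete subsets of an infinite thin `T1` space are closed -/
theorem Thin.der_empty [Infinite S] (hS : Thin S) {D : Set S} (hD : CD D) : derivedSet D = ∅ := by
  by_contra hne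
  refine hS.final fun E hE => ?_
  obtain ⟨h, rfl⟩ := hS.eqv_cd hD hE
  rw [← img_der]
  exact (nonempty_iff_ne_empty.2 hne).image h

theorem Thin.cd_closed [Infinite S] (hS : Thin S) {D : Set S} (hD : CD D) : IsClosed D := by
  rw [isClosed_iff_derivedSet_subset, hS.der_empty hD]
  exact empty_subset _

end Pool.Agent.Lib.MP_52f683_gt
end
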