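import Pool.Agent.Lib.MP_52f683_gt.Sep

set_option autoImplicit false

open Set Topology

namespace Pool.Agent.Lib.MP_52f683_gt

variable {S : Type*} [TopologicalSpace S]

lemma Thin.infinite_quot [Infinite S] (hS : Thin S) : Infinite (SeparationQuotient S) := by
  obtain ⟨x, hx⟩ := hS.exists_seq
  refine Infinite.of_injective (fun n => SeparationQuotient.mk (x n)) fun i j hij => ?_
  by_contra hne
  exact hx i j hne (SeparationQuotient.mk_eq_mk.1 hij)

lemma Thin.t1_quot (hS : Thin S) : T1Space (SeparationQuotient S) := by
  have := hS.r0
  exact SeparationQuotient.t1Space_iff.2 this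

/-- a homeomorphism of the space induces one of the separation quotient -/
noncomputable def quotHomeo (h : S ≃ₜ S) : SeparationQuotient S ≃ₜ SeparationQuotient S where
  toFun := SeparationQuotient.lift (fun x => SeparationQuotient.mk (h x))
    fun _ _ hxy => SeparationQuotient.mk_eq_mk.2 (hxy.map h.continuous)
  invFun := SeparationQuotient.lift (fun x => SeparationQuotient.mk (h.symm x))
    fun _ _ hxy => SeparationQuotient.mk_eq_mk.2 (hxy.map h.symm.continuous)
  left_inv := by
    intro y
    obtain ⟨x, rfl⟩ := SeparationQuotient.surjective_mk y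
    simp
  right_inv := by
    intro y
    obtain ⟨x, rfl⟩ := SeparationQuotient.surjective_mk y
    simp
  continuous_toFun := SeparationQuotient.continuous_lift
    (SeparationQuotient.continuous_mk.comp h.continuous)
  continuous_invFun := SeparationQuotient.continuous_lift
    (SeparationQuotient.continuous_mk.comp h.symm.continuous)

lemma quotHomeo_mk (h : S ≃ₜ S) (x : S) :
    quotHomeo h (SeparationQuotient.mk x) = SeparationQuotient.mk (h x) := rfl

lemma Thin.thin_quot (hS : Thin S) : Thin (SeparationQuotient S) := by
  intro A B ⟨e⟩
  let s : SeparationQuotient S → S := Function.surjInv SeparationQuotient.surjective_mk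
  have hs : ∀ y, SeparationQuotient.mk (s y) = y := Function.surjInv_eq _
  have hind : IsInducing s := by
    have h1 : IsInducing (SeparationQuotient.mk ∘ s) := by
      have : (SeparationQuotient.mk ∘ s) = id := funext hs
      rw [this]; exact IsInducing.id
    exact (SeparationQuotient.isInducing_mk.of_comp_iff).1 h1
  have hemb : IsEmbedding s := ⟨hind, Function.injective_surjInv _⟩
  obtain ⟨h, hh⟩ := hS (s '' A) (s '' B)
    ⟨((hemb.homeomorphImage A).symm.trans e).trans (hemb.homeomorphImage B)⟩
  refine ⟨quotHomeo h, ?_⟩
  have e1 : ∀ X : Set (SeparationQuotient S), SeparationQuotient.mk '' (s '' X) = X := by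
    intro X
    rw [image_image]
    simp [hs]
  rw [← e1 A, ← e1 B, ← hh, image_image, image_image, image_image, image_image]
  rfl

end Pool.Agent.Lib.MP_52f683_gt
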