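import Pool.Agent.Lib.MP_52f683_gt.Sep

set_option autoImplicit false

open Set Topology

namespace Pool.Agent.Lib.MP_52f683_gt

variable {S : Type*} [TopologicalSpace S]

/-- half of regularity -/
def Reg (X : Set S) : Prop := interior (closure X) ⊆ X

lemma reg_int_cl (U : Set S) : Reg (interior (closure U)) :=
  interior_mono (closure_minimal interior_subset isClosed_closure)

lemma Reg.inter {X Y : Set S} (hX : Reg X) (hY : Reg Y) : Reg (X ∩ Y) :=
  subset_inter ((interior_mono (closure_mono inter_subset_left)).trans hX)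
    ((interior_mono (closure_mono inter_subset_right)).trans hY)

lemma Reg.preimage {X : Set S} (hX : Reg X) (g : S ≃ₜ S) : Reg (g ⁻¹' X) := by
  unfold Reg
  rw [← g.preimage_closure, ← g.preimage_interior]
  exact preimage_mono hX

lemma Reg.image {X : Set S} (hX : Reg X) (g : S ≃ₜ S) : Reg (g '' X) := by
  rw [← g.preimage_symm]
  exact hX.preimage g.symm

lemma disjoint_cl {a b : Set S} (ha : IsOpen a) (h : Disjoint a b) : Disjoint a (closure b) :=
  h.closure_right ha

lemma disjoint_reg {a b : Set S} (ha : IsOpen a) (h : Disjoint a b) (hb : IsOpen b) :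
    Disjoint (interior (closure a)) (interior (closure b)) := by
  have h1 : Disjoint a (interior (closure b)) := (disjoint_cl ha h).mono_right interior_subset
  have _ := hb
  exact (disjoint_cl isOpen_interior h1.symm).symm.mono_left interior_subset

lemma reg_compl_cl {U : Set S} (hU : IsOpen U) : Reg (closure U)ᶜ := by
  intro x hx hxU
  have h1 : Disjoint U (closure U)ᶜ := disjoint_left.2 fun y hy h => h (subset_closure hy)
  have h2 : Disjoint (interior (closure (closure U)ᶜ)) U :=
    (disjoint_cl hU h1).symm.mono_left interior_subset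
  exact disjoint_left.1 (disjoint_cl isOpen_interior h2) hx hxU

/-- a point of an open set `W` inside `closure (X ∪ Y)`, with `W` missing `Y`. -/
lemma mem_int_cl_of {W X Y : Set S} {x : S} (hW : IsOpen W) (hx : x ∈ W) (hd : Disjoint W Y)
    (hx' : x ∈ interior (closure (X ∪ Y))) : x ∈ interior (closure X) := by
  refine mem_interior.2 ⟨W ∩ interior (closure (X ∪ Y)), ?_, hW.inter isOpen_interior, hx, hx'⟩
  intro y hy
  have := interior_subset hy.2
  rw [closure_union] at this
  exact this.resolve_right (disjoint_left.1 (disjoint_cl hW hd) hy.1)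

/-- First step when the space is not extremally disconnected. -/
lemma Thin.claim1 (hS : Thin S) {U : Set S} (hU : IsOpen U) (hn : ¬ IsOpen (closure U))
    {a b : Set S} (ha : IsOpen a) (hb : IsOpen b) (hane : a.Nonempty) (hbne : b.Nonempty)
    (hab : Disjoint a b) : (interior (closure (a ∪ b)) ∩ closure a ∩ closure b).Nonempty := by
  by_contra hcon
  rw [not_nonempty_iff_eq_empty] at hcon
  obtain ⟨p, hp1, hp2⟩ : ∃ p, p ∈ closure U ∧ p ∉ interior (closure U) := by
    by_contra hh
    push Not at hh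
    exact hn (subset_interior_iff_isOpen.1 hh)
  set ar := interior (closure a) with har
  set br := interior (closure b) with hbr
  have hd : Disjoint ar br := disjoint_reg ha hab hb
  have haa : a ⊆ ar := ha.subset_interior_closure
  have hbb : b ⊆ br := hb.subset_interior_closure
  obtain ⟨u, hu⟩ := hane
  obtain ⟨v, hv⟩ := hbne
  obtain ⟨g1, hg1⟩ := hS.homog p u
  obtain ⟨g2, hg2⟩ := hS.homog p v
  set O := g1 ⁻¹' ar ∩ g2 ⁻¹' br with hO
  have hOo : IsOpen O :=
    (isOpen_interior.preimage g1.continuous).inter (isOpen_interior.preimage g2.continuous)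
  have hOr : Reg O := ((reg_int_cl a).preimage g1).inter ((reg_int_cl b).preimage g2)
  have hpO : p ∈ O := ⟨by rw [mem_preimage, hg1]; exact haa hu, by
    rw [mem_preimage, hg2]; exact hbb hv⟩
  set A := interior (closure U) with hA
  set B := (closure U)ᶜ with hB
  have hAB : Disjoint A B := disjoint_left.2 fun x hx hx' => hx' (interior_subset hx)
  have i1 : g1 '' (A ∩ O) ⊆ ar := by
    rintro _ ⟨x, hx, rfl⟩; exact hx.2.1
  have i2 : g2 '' (B ∩ O) ⊆ br := by
    rintro _ ⟨x, hx, rfl⟩; exact hx.2.2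
  obtain ⟨h, hh⟩ := hS.glue2 (A := A ∩ O) (B := B ∩ O) (OA := A) (OB := B) (OA' := ar)
    (OB' := br) g1 g2 isOpen_interior isClosed_closure.isOpen_compl inter_subset_left
    inter_subset_left (hAB.mono_right inter_subset_left) (hAB.symm.mono_right inter_subset_left)
    isOpen_interior isOpen_interior i1 i2 (hd.mono_right i2) (hd.symm.mono_right i1)
  have r1 : Reg (g1 '' (A ∩ O)) := ((reg_int_cl U).inter hOr).image g1
  have r2 : Reg (g2 '' (B ∩ O)) := ((reg_compl_cl hU).inter hOr).image g2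
  have r3 : Reg (g1 '' (A ∩ O) ∪ g2 '' (B ∩ O)) := by
    intro x hx
    have hx1 : x ∈ interior (closure (a ∪ b)) := by
      refine interior_mono ?_ hx
      refine closure_minimal ?_ isClosed_closure
      exact union_subset
        (i1.trans (interior_subset.trans (closure_mono subset_union_left)))
        (i2.trans (interior_subset.trans (closure_mono subset_union_right)))
    by_cases hxb : x ∈ closure b
    · have hxa : x ∉ closure a := fun hxa =>
        (hcon ▸ (⟨⟨hx1, hxa⟩, hxb⟩ : x ∈ interior (closure (a ∪ b)) ∩ closure a ∩ closure b) :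
          x ∈ (∅ : Set S))
      right
      apply r2
      rw [union_comm] at hx
      refine mem_int_cl_of isClosed_closure.isOpen_compl hxa ?_ hx
      exact disjoint_left.2 fun y hy hy' => hy (interior_subset (i1 hy'))
    · left
      apply r1
      refine mem_int_cl_of isClosed_closure.isOpen_compl hxb ?_ hx
      exact disjoint_left.2 fun y hy hy' => hy (interior_subset (i2 hy'))
  rw [← hh] at r3
  have r4 : Reg (A ∩ O ∪ B ∩ O) := by
    have := r3.preimage h
    rwa [preimage_image_eq _ h.injective] at this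
  have hp : p ∈ interior (closure (A ∩ O ∪ B ∩ O)) := by
    refine mem_interior.2 ⟨O, ?_, hOo, hpO⟩
    intro x hx
    rw [← union_inter_distrib_right]
    apply hOo.closure_inter
    refine ⟨?_, hx⟩
    rw [closure_union]
    by_cases hxU : x ∈ closure U
    · exact Or.inl (closure_mono hU.subset_interior_closure hxU)
    · exact Or.inr (subset_closure hxU)
  rcases r4 hp with h1 | h1
  · exact hp2 h1.1
  · exact h1.1 hp1

lemma Thin.exists_move (hS : Thin S) {U V : Set S} (hU : IsOpen U) (hV : IsOpen V)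
    (hUne : U.Nonempty) (hVne : V.Nonempty) (hUV : Disjoint U V) :
    ∃ (c : Set S) (g : S ≃ₜ S), IsOpen c ∧ c.Nonempty ∧ Disjoint c (g '' c) := by
  obtain ⟨u, hu⟩ := hUne
  obtain ⟨v, hv⟩ := hVne
  obtain ⟨g, hg⟩ := hS.homog u v
  refine ⟨U ∩ g ⁻¹' V, g, hU.inter (hV.preimage g.continuous),
    ⟨u, hu, by rw [mem_preimage, hg]; exact hv⟩, hUV.mono inter_subset_left ?_⟩
  rintro _ ⟨x, hx, rfl⟩
  exact hx.2

/-- A thin space with the splitting property is extremally disconnected. -/
lemma Thin.ed (hS : Thin S) (hs : Split S) {c0 : Set S} (g : S ≃ₜ S) (hc0 : IsOpen c0)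
    (hne : c0.Nonempty) (hg : Disjoint c0 (g '' c0)) {U : Set S} (hU : IsOpen U) :
    IsOpen (closure U) := by
  by_contra hn
  have cl1 := fun {a b : Set S} => hS.claim1 hU hn (a := a) (b := b)
  obtain ⟨c1, c2, o1, o2, n1, n2, s1, s2, d12⟩ := hs c0 hc0 hne
  obtain ⟨c11, c12, o11, o12, n11, n12, s11, s12, d1⟩ := hs c1 o1 n1
  obtain ⟨c21, c22, o21, o22, n21, n22, s21, s22, d2⟩ := hs c2 o2 n2
  set c := interior (closure (c1 ∪ c2)) with hc
  have hco : IsOpen c := isOpen_interior
  have hgco : IsOpen (g '' c) := g.isOpenMap _ hco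
  have hcg : Disjoint c (g '' c) := by
    have h1 := disjoint_reg hc0 hg (g.isOpenMap _ hc0)
    have h2 : c ⊆ interior (closure c0) := interior_mono (closure_mono (union_subset s1 s2))
    refine h1.mono h2 ?_
    rw [← g.image_closure, ← g.image_interior]
    exact image_mono h2
  set P := c ∩ closure c1 ∩ closure c2 with hP
  have key : ∀ a b : Set S, IsOpen a → IsOpen b → a.Nonempty → b.Nonempty → a ⊆ c1 → b ⊆ c2 →
      (P ∩ interior (closure (a ∪ b))).Nonempty := by
    intro a b ha hb na nb sa sb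
    obtain ⟨x, ⟨h1, h2⟩, h3⟩ := cl1 ha hb na nb (d12.mono sa sb)
    exact ⟨x, ⟨⟨interior_mono (closure_mono (union_subset_union sa sb)) h1, closure_mono sa h2⟩,
      closure_mono sb h3⟩, h1⟩
  set O1 := interior (closure (c11 ∪ c21)) with hO1
  set O2 := interior (closure (c12 ∪ c22)) with hO2
  have hO12 : Disjoint O1 O2 := by
    refine disjoint_reg (o11.union o21) ?_ (o12.union o22)
    rw [disjoint_union_left, disjoint_union_right, disjoint_union_right]
    exact ⟨⟨d1, d12.mono s11 s22⟩, (d12.mono s12 s21).symm, d2⟩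
  set A := P ∩ O1 with hA
  set B := P \ closure A with hB
  have nA : A.Nonempty := key _ _ o11 o21 n11 n21 s11 s21
  have nB : B.Nonempty := by
    obtain ⟨x, hx, hx2⟩ := key _ _ o12 o22 n12 n22 s12 s22
    exact ⟨x, hx, disjoint_left.1
      (disjoint_cl isOpen_interior (hO12.symm.mono_right inter_subset_right)) hx2⟩
  have hAc : A ⊆ c := fun x hx => hx.1.1.1
  have hBc : g '' B ⊆ g '' c := image_mono fun x hx => hx.1.1.1
  obtain ⟨h, hh⟩ := hS.glue2 (A := A) (B := B) (OA := O1) (OB := (closure A)ᶜ) (OA' := c)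
    (OB' := g '' c) (Homeomorph.refl S) g isOpen_interior isClosed_closure.isOpen_compl
    inter_subset_right (fun x hx => hx.2)
    (disjoint_left.2 fun x hx hx' => hx'.2 (subset_closure ⟨hx'.1, hx⟩))
    (disjoint_left.2 fun x hx hx' => hx (subset_closure hx')) hco hgco (by simpa using hAc) hBc
    (hcg.mono_right hBc) (by simpa using hcg.symm.mono_right hAc)
  simp only [Homeomorph.refl_apply, id, image_id'] at hh
  have hABP : A ∪ B ⊆ P := union_subset inter_subset_left sdiff_subset
  have m1 : (h ⁻¹' c ∩ c1).Nonempty := by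
    obtain ⟨x, hx⟩ := nA
    have : x ∈ h '' (A ∪ B) := by rw [hh]; exact Or.inl hx
    obtain ⟨y, hy, rfl⟩ := this
    exact mem_closure_iff.1 (hABP hy).1.2 _ (hco.preimage h.continuous) (hAc hx)
  have m2 : (h ⁻¹' (g '' c) ∩ c2).Nonempty := by
    obtain ⟨x, hx⟩ := nB
    have : g x ∈ h '' (A ∪ B) := by rw [hh]; exact Or.inr (mem_image_of_mem _ hx)
    obtain ⟨y, hy, hyx⟩ := this
    refine mem_closure_iff.1 (hABP hy).2 _ (hgco.preimage h.continuous) ?_
    rw [mem_preimage, hyx]
    exact hBc (mem_image_of_mem _ hx)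
  obtain ⟨x, hxP, hxW⟩ := key _ _ ((hco.preimage h.continuous).inter o1)
    ((hgco.preimage h.continuous).inter o2) m1 m2 inter_subset_right inter_subset_right
  set W := interior (closure (h ⁻¹' c ∩ c1 ∪ h ⁻¹' (g '' c) ∩ c2)) with hW
  have hxcl : x ∈ closure (A ∪ B) := by
    rw [closure_union]
    by_cases hxA : x ∈ closure A
    · exact Or.inl hxA
    · exact Or.inr (subset_closure ⟨hxP, hxA⟩)
  obtain ⟨y, hyW, hy⟩ := mem_closure_iff.1 hxcl W isOpen_interior hxW
  have y1 : y ∈ closure (h ⁻¹' c) := by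
    have h1 : y ∈ closure (W ∩ c1) := isOpen_interior.inter_closure ⟨hyW, (hABP hy).1.2⟩
    refine closure_minimal ?_ isClosed_closure h1
    intro z hz
    have := mem_int_cl_of o1 hz.2 (d12.mono_right inter_subset_right) hz.1
    exact closure_mono inter_subset_left (interior_subset this)
  have y2 : y ∈ closure (h ⁻¹' (g '' c)) := by
    have h1 : y ∈ closure (W ∩ c2) := isOpen_interior.inter_closure ⟨hyW, (hABP hy).2⟩
    refine closure_minimal ?_ isClosed_closure h1
    intro z hz
    have hz1 := hz.1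
    rw [hW, union_comm] at hz1
    have := mem_int_cl_of o2 hz.2 (d12.symm.mono_right inter_subset_right) hz1
    exact closure_mono inter_subset_left (interior_subset this)
  rw [← h.preimage_closure] at y1 y2
  have hy' : h y ∈ h '' (A ∪ B) := mem_image_of_mem _ hy
  rw [hh] at hy'
  rcases hy' with h1 | h1
  · exact disjoint_left.1 (disjoint_cl hco hcg) (hAc h1) y2
  · exact disjoint_left.1 (disjoint_cl hgco hcg.symm) (hBc h1) y1

/-- An infinite disjoint family of nonempty clopen sets never has a closed union. -/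
lemma Thin.not_closed_union (hS : Thin S) (E : ℕ → Set S) (hE : ∀ n, IsClopen (E n))
    (hne : ∀ n, (E n).Nonempty) (hd : ∀ i j, i ≠ j → Disjoint (E i) (E j)) :
    ¬ IsClosed (⋃ n, E n) := by
  intro hcl
  choose e he using hne
  choose g hg using fun n => hS.homog (e 0) (e n)
  let O : ℕ → Set S := fun m => ⋂ i ∈ Finset.range (m + 1), g i ⁻¹' E i
  have hO : ∀ m, IsClopen (O m) := fun m =>
    isClopen_biInter_finset fun i _ => (hE i).preimage (g i).continuous
  have memO : ∀ m x, x ∈ O m ↔ ∀ i ≤ m, g i x ∈ E i := by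
    intro m x
    simp [O]
  let Q : ℕ → Set S := fun m => O m \ O (m + 1)
  have hQ : ∀ m, IsClopen (Q m) := fun m => (hO m).diff (hO (m + 1))
  have hQd : ∀ i j, i ≠ j → Disjoint (Q i) (Q j) := by
    have : ∀ i j, i < j → Disjoint (Q i) (Q j) := by
      intro i j hij
      refine disjoint_left.2 fun x hx hx' => hx.2 ((memO _ _).2 fun k hk => ?_)
      exact (memO _ _).1 hx'.1 k (by omega)
    intro i j hij
    rcases lt_or_gt_of_ne hij with h | h
    · exact this i j h
    · exact (this j i h).symm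
  have hsub : ∀ m, g m '' Q m ⊆ E m := by
    rintro m _ ⟨x, hx, rfl⟩
    exact (memO _ _).1 hx.1 m le_rfl
  obtain ⟨h, hh⟩ := hS.glue Q Q E g (fun m => (hQ m).isOpen) (fun _ => subset_rfl) hQd
    (fun m => (hE m).isOpen) hsub (fun i j hij => (hd i j hij).mono_right (hsub j))
  have c1 : IsClosed (⋃ m, g m '' Q m) := by
    refine isClosed_of_closure_subset fun x hx => ?_
    have hx' : x ∈ ⋃ n, E n := hcl.closure_subset_iff.2 (iUnion_mono hsub) hx
    obtain ⟨n, hn⟩ := mem_iUnion.1 hx'
    have h1 : x ∈ closure (E n ∩ ⋃ m, g m '' Q m) := (hE n).isOpen.inter_closure ⟨hn, hx⟩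
    refine mem_iUnion.2 ⟨n, ?_⟩
    refine ((g n).isClosedMap _ (hQ n).isClosed).closure_subset_iff.2 ?_ h1
    rintro y ⟨hy1, hy2⟩
    obtain ⟨m, hm⟩ := mem_iUnion.1 hy2
    by_cases hmn : n = m
    · exact hmn ▸ hm
    · exact absurd (hsub m hm) (disjoint_left.1 (hd n m hmn) hy1)
  rw [← hh, h.isClosed_image] at c1
  let Z : Set S := O 0 \ ⋃ m, Q m
  have hZ : IsOpen Z := (hO 0).isOpen.sdiff c1
  have hZO : ∀ x ∈ Z, ∀ m, x ∈ O m := by
    intro x hx m
    induction m with
    | zero => exact hx.1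
    | succ m ih =>
      by_contra hm
      exact hx.2 (mem_iUnion.2 ⟨m, ih, hm⟩)
  have hp : ∀ m, e 0 ∈ O m := fun m => (memO _ _).2 fun i _ => by rw [hg]; exact he i
  have hpZ : e 0 ∈ Z := ⟨hp 0, fun hx => by
    obtain ⟨m, hm⟩ := mem_iUnion.1 hx
    exact hm.2 (hp _)⟩
  have hZE : ∀ n, g n '' Z ⊆ E n := by
    rintro n _ ⟨x, hx, rfl⟩
    exact (memO _ _).1 (hZO x hx n) n le_rfl
  refine hS.no_shift (fun n => g n '' Z) (fun n => (g n).isOpenMap _ hZ)
    ⟨_, mem_image_of_mem _ hpZ⟩ (fun i j hij => (hd i j hij).mono (hZE i) (hZE j))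
    (fun n => (g n).symm.trans (g (n + 1))) ?_
  rintro n _ ⟨_, ⟨x, hx, rfl⟩, rfl⟩
  exact ⟨x, hx, by simp⟩

/-- A thin space with the splitting property is not extremally disconnected. -/
lemma Thin.not_ed (hS : Thin S) (hs : Split S) {c0 : Set S} (g : S ≃ₜ S) (hc0 : IsOpen c0)
    (hne : c0.Nonempty) (hg : Disjoint c0 (g '' c0))
    (ed : ∀ U : Set S, IsOpen U → IsOpen (closure U)) : False := by
  have clo : ∀ U : Set S, IsOpen U → IsClopen (closure U) := fun U hU => ⟨isClosed_closure, ed U hU⟩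
  have dcl : ∀ a b : Set S, IsOpen a → IsOpen b → Disjoint a b →
      Disjoint (closure a) (closure b) := fun a b ha hb hab =>
    disjoint_cl (ed a ha) (disjoint_cl hb hab.symm).symm
  set O := closure c0 with hOdef
  have hO : IsClopen O := clo c0 hc0
  have hgO : IsClopen (g '' O) := ⟨g.isClosedMap _ hO.1, g.isOpenMap _ hO.2⟩
  have hOg : Disjoint O (g '' O) := by
    rw [hOdef, g.image_closure]
    exact dcl _ _ hc0 (g.isOpenMap _ hc0) hg
  obtain ⟨a, ha, nea, sa, da⟩ := hs.seq hc0 hne
  let C : ℕ → Set S := fun n => closure (a n)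
  have hC : ∀ n, IsClopen (C n) := fun n => clo _ (ha n)
  have nC : ∀ n, (C n).Nonempty := fun n => (nea n).closure
  have sC : ∀ n, C n ⊆ O := fun n => closure_mono (sa n)
  have dC : ∀ i j, i ≠ j → Disjoint (C i) (C j) := fun i j hij => dcl _ _ (ha i) (ha j) (da i j hij)
  have pairne : ∀ k j l m : ℕ, (k ≠ l ∨ j ≠ m) → Nat.pair k j ≠ Nat.pair l m := by
    intro k j l m h e
    rw [Nat.pair_eq_pair] at e
    tauto
  let Wk : ℕ → Set S := fun k => ⋃ j, C (Nat.pair k j)
  have hWk : ∀ k, IsOpen (Wk k) := fun k => isOpen_iUnion fun j => (hC _).isOpen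
  let W : Set S := ⋃ n, C n
  have hW : IsOpen W := isOpen_iUnion fun j => (hC _).isOpen
  have WkW : ∀ k, Wk k ⊆ W := fun k => iUnion_subset fun j => subset_iUnion C _
  have dk : ∀ k l m, k ≠ l → Disjoint (C (Nat.pair l m)) (closure (Wk k)) := by
    intro k l m hkl
    refine disjoint_cl (hC _).isOpen (disjoint_iUnion_right.2 fun j => dC _ _ ?_)
    exact pairne _ _ _ _ (Or.inl hkl.symm)
  let Y : Set S := closure W \ W
  let A : Set S := ⋃ k, closure (Wk k) \ Wk k
  have hAY : A ⊆ Y := by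
    refine iUnion_subset fun k x hx => ⟨closure_mono (WkW k) hx.1, fun hxW => ?_⟩
    obtain ⟨n, hn⟩ := mem_iUnion.1 hxW
    rw [← Nat.pair_unpair n] at hn
    by_cases hk : k = n.unpair.1
    · exact hx.2 (mem_iUnion.2 ⟨n.unpair.2, by rw [hk]; exact hn⟩)
    · exact disjoint_left.1 (dk k _ _ hk) hn hx.1
  have hYO : Y ⊆ O := fun x hx => hO.1.closure_subset_iff.2 (iUnion_subset sC) hx.1
  let As : Set S := ⋂₀ {D | IsClopen D ∧ A ⊆ D}
  have hAs : IsClosed As := isClosed_sInter fun D hD => hD.1.1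
  have hAAs : A ⊆ As := subset_sInter fun D hD => hD.2
  let B : Set S := Y \ As
  have hBO : g '' B ⊆ g '' O := image_mono (sdiff_subset.trans hYO)
  have hAO : A ⊆ O := hAY.trans hYO
  obtain ⟨h, hh⟩ := hS.glue2 (A := A) (B := B) (OA := ⋃ k, closure (Wk k)) (OB := Asᶜ) (OA' := O)
    (OB' := g '' O) (Homeomorph.refl S) g (isOpen_iUnion fun k => ed _ (hWk k)) hAs.isOpen_compl
    (iUnion_mono fun k => sdiff_subset) (fun x hx => hx.2)
    (disjoint_left.2 fun x hx hx' => by
      obtain ⟨k, hk⟩ := mem_iUnion.1 hx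
      exact hx'.2 (hAAs (mem_iUnion.2 ⟨k, hk, fun h => hx'.1.2 (WkW k h)⟩)))
    (disjoint_left.2 fun x hx hx' => hx (hAAs hx')) hO.2 hgO.2 (by simpa using hAO) hBO
    (hOg.mono_right hBO) (by simpa using hOg.symm.mono_right hAO)
  simp only [Homeomorph.refl_apply, id, image_id'] at hh
  let R : ℕ → Set S := fun n => h '' (closure W \ C n) ∩ O
  have hR : ∀ n, IsClopen (R n) := by
    intro n
    have := (clo W hW).diff (hC n)
    exact IsClopen.inter ⟨h.isClosedMap _ this.1, h.isOpenMap _ this.2⟩ hO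
  have hAR : ∀ n, A ⊆ R n := by
    intro n x hx
    refine ⟨?_, hAO hx⟩
    have : x ∈ h '' (A ∪ B) := by rw [hh]; exact Or.inl hx
    refine image_mono ?_ this
    refine (union_subset hAY sdiff_subset).trans fun y hy => ⟨hy.1, fun hn => hy.2 ?_⟩
    exact mem_iUnion.2 ⟨n, hn⟩
  have hRA : ∀ p, (∀ n, p ∈ R n) → p ∈ As := by
    intro p hp
    obtain ⟨y, rfl⟩ := h.surjective p
    have hy : ∀ n, y ∈ closure W \ C n := fun n => (h.injective.mem_set_image).1 (hp n).1
    have hyY : y ∈ Y := ⟨(hy 0).1, fun hyW => by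
      obtain ⟨n, hn⟩ := mem_iUnion.1 hyW
      exact (hy n).2 hn⟩
    have hyO : h y ∈ O := (hp 0).2
    by_cases hys : y ∈ As
    · intro D hD
      have h1 : A ⊆ h ⁻¹' (D ∪ g '' O) := by
        intro x hx
        have : h x ∈ h '' (A ∪ B) := mem_image_of_mem _ (Or.inl hx)
        rw [hh] at this
        exact this.imp (fun t => hD.2 t) (fun t => hBO t)
      have h2 := hys _ ⟨(hD.1.union hgO).preimage h.continuous, h1⟩
      exact Or.resolve_right h2 (disjoint_left.1 hOg hyO)
    · have : h y ∈ h '' (A ∪ B) := mem_image_of_mem _ (Or.inr ⟨hyY, hys⟩)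
      rw [hh] at this
      exact hAAs (this.resolve_right fun t => disjoint_left.1 hOg hyO (hBO t))
  have pick : ∀ k, ∃ j, ∀ i ≤ k, C (Nat.pair k j) ⊆ R i := by
    intro k
    by_contra hcon
    let Rk : Set S := ⋂ i ∈ Finset.range (k + 1), R i
    have hRk : IsClopen Rk := isClopen_biInter_finset fun i _ => hR i
    have memRk : ∀ x, x ∈ Rk ↔ ∀ i ≤ k, x ∈ R i := by
      intro x
      simp [Rk]
    refine hS.not_closed_union (fun j => C (Nat.pair k j) \ Rk) (fun j => (hC _).diff hRk) ?_
      (fun i j hij => (dC _ _ (pairne _ _ _ _ (Or.inr hij))).mono sdiff_subset sdiff_subset) ?_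
    · intro j
      by_contra hem
      rw [not_nonempty_iff_eq_empty, sdiff_eq_empty] at hem
      exact hcon ⟨j, fun i hi x hx => (memRk x).1 (hem hx) i hi⟩
    · have : (⋃ j, C (Nat.pair k j) \ Rk) = closure (Wk k) \ Rk := by
        rw [← iUnion_sdiff]
        refine Subset.antisymm (sdiff_subset_sdiff_left subset_closure) fun x hx => ⟨?_, hx.2⟩
        by_contra hxk
        exact hx.2 ((memRk x).2 fun i _ => hAR i (mem_iUnion.2 ⟨k, hx.1, hxk⟩))
      rw [this]
      exact isClosed_closure.sdiff hRk.isOpen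
  choose j hj using pick
  let Ws : Set S := ⋃ k, C (Nat.pair k (j k))
  have hWs : IsOpen Ws := isOpen_iUnion fun k => (hC _).isOpen
  have hncl : ¬ IsClosed Ws := hS.not_closed_union _ (fun k => hC _) (fun k => nC _)
    (fun i k hik => dC _ _ (pairne _ _ _ _ (Or.inl hik)))
  obtain ⟨p, hp1, hp2⟩ : ∃ p, p ∈ closure Ws ∧ p ∉ Ws := by
    by_contra hh'
    push Not at hh'
    exact hncl (isClosed_of_closure_subset hh')
  have hpR : ∀ n, p ∈ R n := by
    intro n
    have h1 : Ws ⊆ (⋃ k ∈ Finset.range n, C (Nat.pair k (j k))) ∪ R n := by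
      refine iUnion_subset fun k x hx => ?_
      by_cases hk : k < n
      · exact Or.inl (mem_biUnion (Finset.mem_range.2 hk) hx)
      · exact Or.inr (hj k n (by omega) hx)
    have h2 : IsClosed ((⋃ k ∈ Finset.range n, C (Nat.pair k (j k))) ∪ R n) :=
      (isClosed_biUnion_finset fun k _ => (hC _).1).union (hR n).1
    rcases h2.closure_subset_iff.2 h1 hp1 with h3 | h3
    · obtain ⟨k, -, hk⟩ := mem_iUnion₂.1 h3
      exact absurd (mem_iUnion.2 ⟨k, hk⟩) hp2
    · exact h3
  refine hRA p hpR (closure Ws)ᶜ ⟨(clo _ hWs).compl, ?_⟩ hp1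
  intro y hy hy'
  obtain ⟨k, hk⟩ := mem_iUnion.1 hy
  have h1 : y ∈ closure (closure (Wk k) ∩ Ws) := (ed _ (hWk k)).inter_closure ⟨hk.1, hy'⟩
  refine hk.2 (mem_iUnion.2 ⟨j k, (hC _).1.closure_subset_iff.2 ?_ h1⟩)
  rintro z ⟨hz1, hz2⟩
  obtain ⟨l, hl⟩ := mem_iUnion.1 hz2
  by_cases hkl : k = l
  · exact hkl ▸ hl
  · exact absurd hz1 (disjoint_left.1 (dk k l _ hkl) hl)

/-- An infinite thin space is hyperconnected. -/
theorem Thin.hyper [Infinite S] (hS : Thin S) {U V : Set S} (hU : IsOpen U) (hV : IsOpen V)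
    (hUne : U.Nonempty) (hVne : V.Nonempty) : (U ∩ V).Nonempty := by
  by_contra hcon
  have hUV : Disjoint U V := disjoint_iff_inter_eq_empty.2 (not_nonempty_iff_eq_empty.1 hcon)
  have hs := hS.split hU hV hUne hVne hUV
  obtain ⟨c, g, hc, hne, hg⟩ := hS.exists_move hU hV hUne hVne hUV
  exact hS.not_ed hs g hc hne hg fun _ h => hS.ed hs g hc hne hg h

end Pool.Agent.Lib.MP_52f683_gt
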