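import Pool.Agent.Lib.MP_52f683_gt.Closed
import Pool.Agent.Lib.MP_52f683_gt.Quot

set_option autoImplicit false
set_option linter.unusedSectionVars false

open Set Topology Filter

namespace Pool.Agent.Lib.MP_52f683_gt

variable {S : Type*} [TopologicalSpace S]

/-- infinite irreducible closed sets -/
structure Irr (K : Set S) : Prop where
  cl : IsClosed K
  irr : IsPreirreducible K
  inf : K.Infinite

lemma Irr.image {K : Set S} (hK : Irr K) (h : S ≃ₜ S) : Irr (h '' K) :=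
  ⟨h.isClosed_image.2 hK.cl, hK.irr.image _ h.continuous.continuousOn,
    hK.inf.image h.injective.injOn⟩

lemma Irr.sub {K C1 C2 : Set S} (hK : Irr K) (h1 : IsClosed C1) (h2 : IsClosed C2)
    (h : K ⊆ C1 ∪ C2) : K ⊆ C1 ∨ K ⊆ C2 :=
  isPreirreducible_iff_isClosed_union_isClosed.1 hK.irr C1 C2 h1 h2 h

lemma Irr.cl_diff {K C : Set S} (hK : Irr K) (hC : IsClosed C) (h : ¬ K ⊆ C) :
    closure (K \ C) = K :=
  (closure_minimal sdiff_subset hK.cl).antisymm <|
    (hK.sub isClosed_closure hC fun x hx => by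
      by_cases hx' : x ∈ C
      · exact Or.inr hx'
      · exact Or.inl (subset_closure ⟨hx, hx'⟩)).resolve_right h

variable [T1Space S]

lemma Irr.inf_diff {K C : Set S} (hK : Irr K) (hC : IsClosed C) (h : ¬ K ⊆ C) :
    (K \ C).Infinite := fun hf =>
  hK.inf (by rw [← hK.cl_diff hC h, hf.isClosed.closure_eq]; exact hf)

lemma Irr.crowded {K C : Set S} (hK : Irr K) (hC : IsClosed C) (h : ¬ K ⊆ C) :
    K \ C ⊆ derivedSet (K \ C) := by
  intro z hz
  have : ¬ K ⊆ C ∪ {z} := fun h' => hK.inf_diff hC h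
    ((finite_singleton z).subset fun y hy => (h' hy.1).resolve_left hy.2)
  rw [mem_derivedSet, accPt_principal_iff_clusterPt, ← mem_closure_iff_clusterPt, Set.sdiff_sdiff,
    hK.cl_diff (hC.union isClosed_singleton) this]
  exact hz.1

lemma Thin.antichain (hS : Thin S) {K1 K2 : Set S} (h1 : Irr K1) (h2 : Irr K2) (g : S ≃ₜ S)
    (n21 : ¬ K2 ⊆ K1) (n31 : ¬ g '' K2 ⊆ K1) (n13 : ¬ K1 ⊆ g '' K2)
    (hsub : K1 ∩ K2 ⊆ g '' K2) : K1 ∩ g '' K2 ⊆ K2 := by
  obtain ⟨w, hw, hw'⟩ := not_subset.1 n21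
  have h3 := h2.image g
  set N := (K1 ∪ g ⁻¹' K1) ∪ {w} with hN
  have hNc : IsClosed N := (h1.cl.union (h1.cl.preimage g.continuous)).union isClosed_singleton
  have hN2 : ¬ K2 ⊆ N := by
    intro h
    rcases h2.sub (h1.cl.union (h1.cl.preimage g.continuous)) isClosed_singleton h with h | h
    · exact (h2.sub h1.cl (h1.cl.preimage g.continuous) h).elim n21
        fun h => n31 (image_subset_iff.2 h)
    · exact h2.inf ((finite_singleton w).subset h)
  have c1 := h1.cl_diff h3.cl n13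
  have c2 := h2.cl_diff hNc hN2
  have c3 : closure (g '' (K2 \ N)) = g '' K2 := by rw [← img_cl, c2]
  have u3 : ∀ y ∈ g '' (K2 \ N), y ∉ K1 := by
    rintro _ ⟨x, hx, rfl⟩ h
    exact hx.2 (Or.inl (Or.inr h))
  obtain ⟨k, hk⟩ := hS.glueE (Eqv.rfl' (K1 \ g '' K2)) (⟨g, rfl⟩ : Eqv (K2 \ N) _)
    ⟨by rw [c2]; exact disjoint_left.2 fun x hx hx' => hx.2 (hsub ⟨hx.1, hx'⟩),
      by rw [c1]; exact disjoint_left.2 fun x hx hx' => hx.2 (Or.inl (Or.inl hx'))⟩
    ⟨by rw [c3]; exact disjoint_sdiff_left, by rw [c1]; exact disjoint_left.2 u3⟩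
  have e : k '' K1 ∪ k '' K2 = K1 ∪ g '' K2 := by
    have := congrArg closure hk
    rwa [← img_cl, closure_union, closure_union, c1, c2, c3, image_union] at this
  have a1 := (h1.image k).sub h1.cl h3.cl (e ▸ subset_union_left)
  have a2 := (h2.image k).sub h1.cl h3.cl (e ▸ subset_union_right)
  have b1 := h1.sub (h1.image k).cl (h2.image k).cl (e ▸ subset_union_left)
  have b3 := h3.sub (h1.image k).cl (h2.image k).cl (e ▸ subset_union_right)
  rcases a1 with a1 | a1 <;> rcases a2 with a2 | a2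
  · exact (n31 (b3.elim (·.trans a1) (·.trans a2))).elim
  · intro z hz
    have e3 : g '' K2 ⊆ k '' K2 := b3.resolve_left fun h => n31 (h.trans a1)
    rw [← mem_img k]
    refine e3 (by_contra fun h => ?_)
    have : k z ∈ k '' (K1 \ g '' K2 ∪ K2 \ N) :=
      hk ▸ Or.inl ⟨a1 (mem_image_of_mem _ hz.1), h⟩
    rw [mem_img] at this
    exact this.elim (fun h => h.2 hz.2) fun h => h.2 (Or.inl (Or.inl hz.1))
  · have e3 : g '' K2 ⊆ k '' K1 := b3.resolve_right fun h => n31 (h.trans a2)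
    have : k w ∈ k '' (K1 \ g '' K2 ∪ K2 \ N) :=
      hk ▸ Or.inl ⟨a2 (mem_image_of_mem _ hw), fun h => hw' ((mem_img k).1 (e3 h))⟩
    rw [mem_img] at this
    exact this.elim (fun h => (hw' h.1).elim) fun h => (h.2 (Or.inr rfl)).elim
  · exact (n13 (b1.elim (·.trans a1) (·.trans a2))).elim

variable [Infinite S]

lemma Thin.cd_union (hS : Thin S) {A B : Set S} (hA : CD A) (hB : CD B) : CD (A ∪ B) :=
  hA.union hB (by simp [hS.der_empty hB]) (by simp [hS.der_empty hA])

lemma Thin.stab (hS : Thin S) {K C D1 D2 : Set S} (hK : Irr K) (hC : IsClosed C) (h : ¬ K ⊆ C)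
    (h1 : CD D1) (h2 : CD D2) (s1 : D1 ⊆ Kᶜ) (s2 : D2 ⊆ Kᶜ) :
    ∃ k : S ≃ₜ S, k '' D1 = D2 ∧ k '' K = K ∧ k '' (K ∩ C) = K ∩ C := by
  have sp : ∀ D, CD D → D ⊆ Kᶜ → Sp D (K \ C) := fun D hD s =>
    ⟨by rw [hK.cl_diff hC h]; exact disjoint_left.2 s,
      by rw [(hS.cd_closed hD).closure_eq]; exact disjoint_left.2 fun x hx hx' => s hx' hx.1⟩
  obtain ⟨k, hk⟩ := hS.glueE (hS.eqv_cd h1 h2) (Eqv.rfl' (K \ C)) (sp _ h1 s1) (sp _ h2 s2)
  have a : ∀ D, CD D → D ⊆ Kᶜ → Disjoint D (derivedSet (D ∪ K \ C)) := fun D hD s =>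
    disjoint_left.2 fun z hz hz' => disjoint_left.1 hD.dsc hz
      ((der_union_left (sp D hD s) hz).1 hz')
  obtain ⟨e1, e2⟩ := split_img k hk (a _ h1 s1)
    ((hK.crowded hC h).trans (der_mono subset_union_right)) (a _ h2 s2)
    ((hK.crowded hC h).trans (der_mono subset_union_right))
  have e3 : k '' K = K := by
    have := congrArg closure e2
    rwa [← img_cl, hK.cl_diff hC h] at this
  exact ⟨k, e1, e3, by rw [← sdiff_sdiff_right_self, img_diff, e2, e3]⟩

lemma Thin.laminar (hS : Thin S) (Ω : Set S) (F : Set (Set S))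
    (tr : ∀ D1 D2, CD D1 → CD D2 → D1 ⊆ Ω → D2 ⊆ Ω →
      ∃ k : S ≃ₜ S, k '' D1 = D2 ∧ ∀ P ∈ F, k '' P ∈ F)
    (sub : ∀ P ∈ F, P ⊆ Ω) (inf : ∀ P ∈ F, ∃ D ⊆ P, CD D) {P0 D2 : Set S} (h0 : P0 ∈ F)
    (h2 : CD D2) (h2' : D2 ⊆ Ω \ P0) (lam : ∀ P ∈ F, ∀ Q ∈ F, P ⊆ Q ∨ Q ⊆ P ∨ Disjoint P Q) :
    False := by
  have ch : ∀ P ∈ F, ∀ Q ∈ F, P ⊆ Q ∨ Q ⊆ P := by
    intro P hP Q hQ
    rcases lam P hP Q hQ with h | h | h
    · exact Or.inl h
    · exact Or.inr h
    exfalso
    obtain ⟨D, hD1, hD⟩ := inf P hP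
    obtain ⟨E, hE1, hE⟩ := inf Q hQ
    obtain ⟨d, hd⟩ := hE.inf.nonempty
    obtain ⟨k, hk, hkF⟩ := tr (D ∪ E) (insert d D) (hS.cd_union hD hE)
      (hD.insert (by simp [hS.der_empty hD]))
      (union_subset (hD1.trans (sub P hP)) (hE1.trans (sub Q hQ)))
      (insert_subset (sub Q hQ (hE1 hd)) (hD1.trans (sub P hP)))
    have aux : ∀ A B a b : Set S, A ∈ F → Disjoint A B → a ⊆ A → b ⊆ B → a.Infinite →
        b.Infinite → a ∪ b = insert d D → d ∈ a → False := by
      intro A B a b hA hAB ha hb ha' hb' e hda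
      obtain ⟨x, hx⟩ := (ha'.sdiff (finite_singleton d)).nonempty
      obtain ⟨y, hy⟩ := (hb'.sdiff (finite_singleton d)).nonempty
      have hxP := hD1 ((e.subset (Or.inl hx.1)).resolve_left hx.2)
      have hyP := hD1 ((e.subset (Or.inr hy.1)).resolve_left hy.2)
      rcases lam A hA P hP with h' | h' | h'
      · exact disjoint_left.1 h (h' (ha hda)) (hE1 hd)
      · exact disjoint_left.1 hAB (h' hyP) (hb hy.1)
      · exact disjoint_left.1 h' (ha hx.1) hxP
    have hdis := (disjoint_image_iff k.injective).2 h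
    rw [image_union] at hk
    rcases hk.symm.subset (mem_insert d D) with h' | h'
    · exact aux _ _ _ _ (hkF P hP) hdis (image_mono hD1) (image_mono hE1) (hD.image k).inf
        (hE.image k).inf hk h'
    · exact aux _ _ _ _ (hkF Q hQ) hdis.symm (image_mono hE1) (image_mono hD1) (hE.image k).inf
        (hD.image k).inf (by rw [union_comm, hk]) h'
  obtain ⟨D1, h1', h1⟩ := inf P0 h0
  obtain ⟨e, -, -, he, heD, -⟩ := hotel h1.inf id Function.injective_id
  let r : S → S → Prop := fun x y => ∀ Q ∈ F, y ∈ Q → x ∈ Q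
  have : IsTrans S r := ⟨fun x y z h1 h2 Q hQ hz => h1 Q hQ (h2 Q hQ hz)⟩
  obtain ⟨g, hg⟩ := exists_increasing_or_nonincreasing_subseq r e
  have hr : range (e ∘ g) ⊆ D1 := by rintro _ ⟨n, rfl⟩; exact heD _
  obtain ⟨k, hk, hkF⟩ := tr (D1 ∪ D2) (range (e ∘ g)) (hS.cd_union h1 h2)
    (h1.mono hr (infinite_range_of_injective (he.comp g.injective)))
    (union_subset (h1'.trans (sub _ h0)) (h2'.trans sdiff_subset)) (hr.trans (h1'.trans (sub _ h0)))
  have big : ∀ D, CD D → D ⊆ D1 ∪ D2 → ∀ i, ∃ j, i < j ∧ e (g j) ∈ k '' D := by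
    intro D hD hs i
    by_contra hcon
    refine (hD.image k).inf (((finite_Iic i).image (e ∘ g)).subset fun z hz => ?_)
    obtain ⟨j, rfl⟩ := hk.subset (image_mono hs hz)
    exact ⟨j, not_lt.1 fun h => hcon ⟨j, h, hz⟩, rfl⟩
  have hin : ∀ {z}, z ∈ k '' D1 → z ∈ k '' P0 := fun hz => image_mono h1' hz
  have hout : ∀ {z}, z ∈ k '' D2 → z ∉ k '' P0 := by
    rintro _ ⟨x, hx, rfl⟩ h
    exact (h2' hx).2 ((mem_img k).1 h)
  rcases hg with hg | hg
  · obtain ⟨j, -, hj⟩ := big D2 h2 subset_union_right 0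
    obtain ⟨i, hi, hi'⟩ := big D1 h1 subset_union_left j
    exact hout hj (hg j i hi _ (hkF _ h0) (hin hi'))
  · obtain ⟨i, -, hi⟩ := big D1 h1 subset_union_left 0
    obtain ⟨j, hj, hj'⟩ := big D2 h2 subset_union_right i
    refine hg i j hj fun Q hQ hjQ => ?_
    exact (ch _ (hkF _ h0) Q hQ).elim (fun h => h (hin hi)) fun h => (hout hj' (h hjQ)).elim

/-- an infinite irreducible closed set is the whole space -/
theorem Thin.irr_eq (hS : Thin S) {K : Set S} (hK : Irr K) : K = univ := by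
  by_contra hne
  have comp : ∀ k h : S ≃ₜ S, k '' (h '' K) = (h.trans k) '' K := fun k h => by
    rw [image_image]; rfl
  by_cases hc : ∃ g : S ≃ₜ S, ¬ g '' K ⊆ K ∧ ¬ K ⊆ g '' K
  · obtain ⟨g, g1, g2⟩ := hc
    have hK2 := hK.image g
    obtain ⟨D2, d1, d2⟩ := hS.exists_cd_compl (hK.cl.union hK2.cl) (hS.union_ne hK.cl hK2.cl hne
      fun h => g2 (h ▸ subset_univ K))
    refine hS.laminar Kᶜ
      {P | ∃ h : S ≃ₜ S, P = h '' K \ K ∧ K ∩ h '' K = K ∩ g '' K ∧ ¬ h '' K ⊆ K} ?_ ?_ ?_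
      ⟨g, rfl, rfl, g1⟩ d2 (fun x hx => ⟨fun h => d1 hx (Or.inl h), fun h => d1 hx (Or.inr h.1)⟩) ?_
    · intro D1 D2 h1 h2 s1 s2
      obtain ⟨k, k1, k2, k3⟩ := hS.stab hK hK2.cl g2 h1 h2 s1 s2
      refine ⟨k, k1, ?_⟩
      rintro _ ⟨h, rfl, a1, a2⟩
      refine ⟨h.trans k, by rw [img_diff, k2, comp], by rw [← comp, ← k3, ← a1, img_inter, k2], ?_⟩
      rw [← comp]
      intro h'
      refine a2 fun x hx => ?_
      rw [← mem_img k, k2]
      exact h' (mem_image_of_mem _ hx)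
    · rintro _ ⟨h, rfl, -⟩
      exact fun x hx => hx.2
    · rintro _ ⟨h, rfl, -, a2⟩
      exact hS.exists_cd_diff (hK.image h).cl hK.cl ((hK.image h).inf_diff hK.cl a2)
    · rintro _ ⟨h3, rfl, a1, a2⟩ _ ⟨h4, rfl, b1, b2⟩
      by_contra hcon
      simp only [not_or] at hcon
      obtain ⟨y, hy, hy'⟩ := not_disjoint_iff.1 hcon.2.2
      refine hy.2 (hS.antichain (hK.image h3) hK h4 (fun h => g2 fun x hx => ?_)
        (fun h => hcon.2.1 (sdiff_subset_sdiff_left h))
        (fun h => hcon.1 (sdiff_subset_sdiff_left h)) (fun x hx => ?_) ⟨hy.1, hy'.1⟩)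
      · exact (a1.subset ⟨hx, h hx⟩).2
      · exact ((a1.trans b1.symm).subset ⟨hx.2, hx.1⟩).2
  · obtain ⟨D2, d1, d2⟩ := hS.exists_cd_compl hK.cl hne
    refine hS.laminar univ {P | ∃ h : S ≃ₜ S, P = h '' K} ?_ (fun _ _ => subset_univ _) ?_
      ⟨Homeomorph.refl S, (image_id K).symm⟩ d2 (fun x hx => ⟨trivial, d1 hx⟩) ?_
    · intro D1 D2 h1 h2 _ _
      obtain ⟨k, hk⟩ := hS.eqv_cd h1 h2
      refine ⟨k, hk, ?_⟩
      rintro _ ⟨h, rfl⟩
      exact ⟨h.trans k, comp k h⟩
    · rintro _ ⟨h, rfl⟩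
      exact hS.exists_cd_closed (hK.image h).cl (hK.image h).inf
    · rintro _ ⟨h3, rfl⟩ _ ⟨h4, rfl⟩
      have e : h4 '' K = h3 '' ((h4.trans h3.symm) '' K) := by
        rw [image_image]; simp
      rw [e]
      by_cases h : (h4.trans h3.symm) '' K ⊆ K
      · exact Or.inr (Or.inl (image_mono h))
      · exact Or.inl (image_mono (by_contra fun h' => hc ⟨_, h, h'⟩))

/-- an infinite non-dense set contains an infinite discrete set -/
theorem Thin.exists_cd_nondense (hS : Thin S) {A : Set S} (hA : A.Infinite)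
    (hd : closure A ≠ univ) : ∃ D ⊆ A, CD D := by
  refine (exists_cd_or hA).resolve_right ?_
  rintro ⟨M, h1, h2, -, h4⟩
  refine hd (eq_univ_of_univ_subset (hS.irr_eq (K := closure M)
    ⟨isClosed_closure, IsPreirreducible.closure ?_, h2.mono subset_closure⟩ ▸ closure_mono h1))
  refine isPreirreducible_iff_isClosed_union_isClosed.2 fun C1 C2 c1 c2 h => ?_
  have : (M ∩ C1 ∪ M ∩ C2).Infinite := h2.mono fun x hx =>
    (h hx).imp (fun h => ⟨hx, h⟩) fun h => ⟨hx, h⟩
  exact (infinite_union.1 this).imp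
    (fun h => (h4 _ inter_subset_left h).trans (closure_minimal inter_subset_right c1))
    fun h => (h4 _ inter_subset_left h).trans (closure_minimal inter_subset_right c2)

/-- some non-dense set is not closed -/
theorem Thin.not_nodec (hS : Thin S) (h : ∀ A : Set S, closure A ≠ univ → IsClosed A) : False := by
  obtain ⟨D, -, hD⟩ := hS.exists_cd_closed isClosed_univ (infinite_univ (α := S))
  obtain ⟨a, f, g, ha, haD, hf, hf', hg, hg'⟩ := hotel hD.inf (· + 1) (add_left_injective 1)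
  have cont : ∀ f : S → S, (∀ x, x ∉ range a → f x = x) → Continuous f := by
    intro f hf
    refine continuous_iff_isClosed.2 fun C hC => ?_
    by_cases hC' : C = univ
    · simp [hC']
    refine h _ fun h' => hS.union_ne hC isClosed_closure hC' (hS.cl_ne hD)
      (eq_univ_of_univ_subset (h' ▸ closure_minimal (fun x hx => ?_) (hC.union isClosed_closure)))
    by_cases hx' : x ∈ range a
    · obtain ⟨n, rfl⟩ := hx'
      exact Or.inr (subset_closure (haD n))
    · exact Or.inl (hf x hx' ▸ hx)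
  obtain ⟨k, hk⟩ := hS univ {a 0}ᶜ (homeo_of_maps f g
    (by
      intro x _
      by_cases hx : x ∈ range a
      · obtain ⟨n, rfl⟩ := hx
        rw [hf]
        exact fun e => by simpa using ha e
      · rw [hf' x hx]
        exact fun e => hx ⟨0, e.symm⟩) (mapsTo_univ _ _)
    (by
      intro x _
      by_cases hx : x ∈ range a
      · obtain ⟨n, rfl⟩ := hx
        rw [hf, hg]
      · rw [hf' x hx, hg' x hx])
    (by
      intro x hx0
      by_cases hx : x ∈ range a
      · obtain ⟨_ | n, rfl⟩ := hx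
        · exact absurd rfl hx0
        · rw [hg, hf]
      · rw [hg' x hx, hf' x hx])
    (cont f hf').continuousOn (cont g hg').continuousOn)
  rw [image_univ, k.surjective.range_eq] at hk
  exact hk.subset (mem_univ (a 0)) rfl

theorem Thin.not_coherent_t1 (hS : Thin S) :
    ¬ IsCoherentWith {K : Set S | IsCountablyCompact K} := by
  intro hc
  refine hS.not_nodec fun A hA => hc.isClosed_iff.2 fun K hK => ?_
  have : (K ∩ A).Finite := by
    by_contra hinf
    obtain ⟨D, h1, hD⟩ := hS.exists_cd_nondense hinf fun h =>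
      hA (eq_univ_of_univ_subset (h ▸ closure_mono inter_subset_right))
    obtain ⟨x, -, hx⟩ := IsCountablyCompact.exists_accPt_of_infinite hK
      (h1.trans inter_subset_left) hD.inf
    exact (hS.der_empty hD).subset hx
  exact (Finite.of_finite_image (f := Subtype.val) (by simpa using this)
    Subtype.val_injective.injOn).isClosed

omit [T1Space S] in
theorem Thin.not_coherent (hS : Thin S) :
    ¬ IsCoherentWith {K : Set S | IsCountablyCompact K} := by
  intro hc
  have := hS.infinite_quot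
  have := hS.t1_quot
  refine hS.thin_quot.not_coherent_t1 (IsCoherentWith.of_isClosed fun t ht => ?_)
  rw [← SeparationQuotient.isQuotientMap_mk.isClosed_preimage, hc.isClosed_iff]
  intro K hK
  exact (ht _ (IsCountablyCompact.image hK SeparationQuotient.continuous_mk)).preimage
    (f := (mapsTo_image SeparationQuotient.mk K).restrict)
    (SeparationQuotient.continuous_mk.restrict _)

end Pool.Agent.Lib.MP_52f683_gt
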