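import Mathlib

-- part Pool.Agent.Lib.MP_52f683_gt.Basic
section

set_option autoImplicit false

open Set Topology

namespace Pool.Agent.Lib.MP_52f683_gt

/-- thin spaces -/
def Thin (S : Type*) [TopologicalSpace S] : Prop :=
  ∀ A B : Set S, Nonempty (A ≃ₜ B) → ∃ h : S ≃ₜ S, ⇑h '' A = B

variable {S : Type*} [TopologicalSpace S]

/-- a bijection between subsets, continuous in both directions -/
lemma homeo_of_maps {A B : Set S} (f g : S → S) (hf : MapsTo f A B) (hg : MapsTo g B A)
    (hgf : ∀ x ∈ A, g (f x) = x) (hfg : ∀ y ∈ B, f (g y) = y)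
    (cf : ContinuousOn f A) (cg : ContinuousOn g B) : Nonempty (A ≃ₜ B) :=
  ⟨{ toFun := hf.restrict f A B
     invFun := hg.restrict g B A
     left_inv := fun x => Subtype.ext (hgf x x.2)
     right_inv := fun y => Subtype.ext (hfg y y.2)
     continuous_toFun := cf.mapsToRestrict hf
     continuous_invFun := cg.mapsToRestrict hg }⟩

lemma Thin.homog (hS : Thin S) (x y : S) : ∃ g : S ≃ₜ S, g x = y := by
  obtain ⟨h, hh⟩ := hS {x} {y} (homeo_of_maps (fun _ => y) (fun _ => x) (fun _ _ => rfl)
    (fun _ _ => rfl) (fun a ha => ha.symm) (fun a ha => ha.symm) continuousOn_const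
    continuousOn_const)
  exact ⟨h, by simpa using hh⟩

lemma continuousOn_glue {ι : Type*} (X O : ι → Set S) (hO : ∀ i, IsOpen (O i))
    (hXO : ∀ i, X i ⊆ O i) (hd : ∀ i j, i ≠ j → Disjoint (O i) (X j))
    (g : ι → S → S) (hg : ∀ i, Continuous (g i)) (f : S → S) (hf : ∀ i, ∀ x ∈ X i, f x = g i x) :
    ContinuousOn f (⋃ i, X i) := by
  intro x hx
  obtain ⟨i, hi⟩ := mem_iUnion.1 hx
  refine (hg i).continuousWithinAt.congr_of_eventuallyEq ?_ (hf i x hi)
  filter_upwards [self_mem_nhdsWithin, mem_nhdsWithin_of_mem_nhds ((hO i).mem_nhds (hXO i hi))]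
    with y hy hyO
  obtain ⟨j, hj⟩ := mem_iUnion.1 hy
  by_cases hij : i = j
  · subst hij; exact hf i y hj
  · exact absurd hj (disjoint_left.1 (hd i j hij) hyO)

/-- The gluing lemma. -/
lemma Thin.glue (hS : Thin S) {ι : Type*} (X O O' : ι → Set S) (g : ι → S ≃ₜ S)
    (hO : ∀ i, IsOpen (O i)) (hXO : ∀ i, X i ⊆ O i) (hd : ∀ i j, i ≠ j → Disjoint (O i) (X j))
    (hO' : ∀ i, IsOpen (O' i)) (hXO' : ∀ i, g i '' X i ⊆ O' i)
    (hd' : ∀ i j, i ≠ j → Disjoint (O' i) (g j '' X j)) :
    ∃ h : S ≃ₜ S, h '' (⋃ i, X i) = ⋃ i, g i '' X i := by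
  classical
  let f : S → S := fun x => if h : ∃ i, x ∈ X i then g h.choose x else x
  let f' : S → S := fun y => if h : ∃ i, y ∈ g i '' X i then (g h.choose).symm y else y
  have hf : ∀ i, ∀ x ∈ X i, f x = g i x := by
    intro i x hx
    have h : ∃ i, x ∈ X i := ⟨i, hx⟩
    have : h.choose = i := by
      by_contra hne
      exact disjoint_left.1 (hd _ _ hne) (hXO _ h.choose_spec) hx
    simp only [f, dif_pos h, this]
  have hf' : ∀ i, ∀ y ∈ g i '' X i, f' y = (g i).symm y := by
    intro i y hy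
    have h : ∃ i, y ∈ g i '' X i := ⟨i, hy⟩
    have : h.choose = i := by
      by_contra hne
      exact disjoint_left.1 (hd' _ _ hne) (hXO' _ h.choose_spec) hy
    simp only [f', dif_pos h, this]
  refine hS _ _ (homeo_of_maps f f' ?_ ?_ ?_ ?_ ?_ ?_)
  · intro x hx
    obtain ⟨i, hi⟩ := mem_iUnion.1 hx
    rw [hf i x hi]
    exact mem_iUnion.2 ⟨i, mem_image_of_mem _ hi⟩
  · intro y hy
    obtain ⟨i, hi⟩ := mem_iUnion.1 hy
    rw [hf' i y hi]
    obtain ⟨x, hx, rfl⟩ := hi
    exact mem_iUnion.2 ⟨i, by simpa using hx⟩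
  · intro x hx
    obtain ⟨i, hi⟩ := mem_iUnion.1 hx
    rw [hf i x hi, hf' i _ (mem_image_of_mem _ hi)]
    simp
  · intro y hy
    obtain ⟨i, hi⟩ := mem_iUnion.1 hy
    rw [hf' i y hi]
    obtain ⟨x, hx, rfl⟩ := hi
    rw [Homeomorph.symm_apply_apply, hf i x hx]
  · exact continuousOn_glue X O hO hXO hd (fun i => g i) (fun i => (g i).continuous) f hf
  · exact continuousOn_glue _ O' hO' hXO' hd' (fun i => (g i).symm)
      (fun i => (g i).symm.continuous) f' hf'

/-- two-piece gluing -/
lemma Thin.glue2 (hS : Thin S) {A B OA OB OA' OB' : Set S} (g1 g2 : S ≃ₜ S)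
    (h1 : IsOpen OA) (h2 : IsOpen OB) (h3 : A ⊆ OA) (h4 : B ⊆ OB)
    (h5 : Disjoint OA B) (h6 : Disjoint OB A)
    (k1 : IsOpen OA') (k2 : IsOpen OB') (k3 : g1 '' A ⊆ OA') (k4 : g2 '' B ⊆ OB')
    (k5 : Disjoint OA' (g2 '' B)) (k6 : Disjoint OB' (g1 '' A)) :
    ∃ h : S ≃ₜ S, h '' (A ∪ B) = g1 '' A ∪ g2 '' B := by
  obtain ⟨h, hh⟩ := hS.glue (ι := Bool) (fun b => cond b A B) (fun b => cond b OA OB)
    (fun b => cond b OA' OB') (fun b => cond b g1 g2)
    (by rintro (_ | _) <;> assumption) (by rintro (_ | _) <;> assumption)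
    (by rintro (_ | _) (_ | _) h <;> first | exact absurd rfl h | assumption)
    (by rintro (_ | _) <;> assumption) (by rintro (_ | _) <;> assumption)
    (by rintro (_ | _) (_ | _) h <;> first | exact absurd rfl h | assumption)
  refine ⟨h, ?_⟩
  rw [union_eq_iUnion, union_eq_iUnion, hh]
  congr 1
  funext b
  cases b <;> rfl

/-- No sequence of disjoint nonempty open sets, each moved into the next one. -/
lemma Thin.no_shift (hS : Thin S) (V : ℕ → Set S) (hV : ∀ n, IsOpen (V n))
    (hne : (V 0).Nonempty) (hd : ∀ i j, i ≠ j → Disjoint (V i) (V j)) (g : ℕ → S ≃ₜ S)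
    (hg : ∀ n, g n '' V n ⊆ V (n + 1)) : False := by
  let R : Set S := (closure (⋃ n, V n))ᶜ
  have hR : ∀ n, Disjoint R (V n) := fun n =>
    disjoint_left.2 fun x hx hxV => hx (subset_closure (mem_iUnion.2 ⟨n, hxV⟩))
  let X : Option ℕ → Set S := fun i => i.elim R V
  let O' : Option ℕ → Set S := fun i => i.elim R fun n => V (n + 1)
  let gg : Option ℕ → S ≃ₜ S := fun i => i.elim (Homeomorph.refl S) g
  have hsub : ∀ i, gg i '' X i ⊆ O' i := by
    rintro (_ | n)
    · simp [gg, X, O']
    · exact hg n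
  have hdO' : ∀ i j, i ≠ j → Disjoint (O' i) (O' j) := by
    rintro (_ | n) (_ | m) h
    · exact absurd rfl h
    · exact hR _
    · exact (hR _).symm
    · exact hd _ _ fun hh => h (by simpa using hh)
  obtain ⟨h, hh⟩ := hS.glue X X O' gg
    (by
      rintro (_ | n)
      · exact isClosed_closure.isOpen_compl
      · exact hV n) (fun _ => subset_rfl)
    (by
      rintro (_ | n) (_ | m) h
      · exact absurd rfl h
      · exact hR _
      · exact (hR _).symm
      · exact hd _ _ fun hh => h (by rw [hh]))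
    (by
      rintro (_ | n)
      · exact isClosed_closure.isOpen_compl
      · exact hV _) hsub (fun i j hij => (hdO' i j hij).mono_right (hsub j))
  have hdense : Dense (⋃ i, X i) := by
    intro x
    by_cases hx : x ∈ closure (⋃ n, V n)
    · exact closure_mono (iUnion_subset fun n => subset_iUnion X (some n)) hx
    · exact subset_closure (mem_iUnion.2 ⟨none, hx⟩)
  have hdense' : Dense (h '' (⋃ i, X i)) := h.surjective.denseRange.dense_image h.continuous hdense
  obtain ⟨y, hy0, hy⟩ := hdense'.inter_open_nonempty _ (hV 0) hne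
  rw [hh] at hy
  obtain ⟨i, hi⟩ := mem_iUnion.1 hy
  have hi' := hsub i hi
  rcases i with _ | n
  · exact disjoint_left.1 (hR 0) hi' hy0
  · exact disjoint_left.1 (hd 0 (n + 1) (by omega)) hy0 hi'

/-- The specialization preorder of a thin space is symmetric. -/
lemma Thin.specializes_symm (hS : Thin S) {x z : S} (hxz : z ⤳ x) : x ⤳ z := by
  classical
  by_contra hn
  obtain ⟨k, hk⟩ := hS.homog x z
  -- x < z < x'
  set x' := k z with hx'
  have h1 : x' ⤳ z := by rw [← hk]; exact hxz.map k.continuous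
  have h2 : ¬ z ⤳ x' := fun h => hn (by
    have := h.map k.symm.continuous
    rw [← hk] at this
    simpa [hx'] using this)
  obtain ⟨g, hg⟩ := hS.homog x x'
  let D : Set S := {u | x ⤳ u}
  let U : S → Set S := fun a => {u | u ⤳ a ∧ ¬ a ⤳ u}
  have hxx' : x' ⤳ x := h1.trans hxz
  have hD : IsClosed D := by
    have : D = closure {x} := by ext u; exact specializes_iff_mem_closure
    rw [this]; exact isClosed_closure
  -- general continuity statement
  have cont : ∀ (a b : S) (φ : S ≃ₜ S), a ⤳ x → b ⤳ x → MapsTo φ (U a) (U b) →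
      (∀ u ∈ U a, u ∉ D) →
      ContinuousOn (fun u => if u ∈ D then u else φ u) (D ∪ U a) := by
    intro a b φ ha hb hm hnd
    rw [continuousOn_iff_isClosed]
    intro F hF
    by_cases hFU : ∃ u ∈ U a, φ u ∈ F
    · obtain ⟨u0, hu0, hu0F⟩ := hFU
      have hDF : D ⊆ F := fun v hv =>
        ((hm hu0).1.trans (hb.trans hv)).mem_closed hF hu0F
      refine ⟨D ∪ φ ⁻¹' F, hD.union (hF.preimage φ.continuous), ?_⟩
      ext v
      by_cases hv : v ∈ D
      · simp [hv, hDF hv]
      · simp [hv]
    · push Not at hFU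
      refine ⟨D ∩ F, hD.inter hF, ?_⟩
      ext v
      by_cases hv : v ∈ D
      · simp [hv]
      · simp only [mem_inter_iff, mem_preimage, hv, if_false, mem_union, false_or, false_and,
          iff_false, not_and]
        intro h3 h4
        exact hFU v h4 h3
  have m1 : MapsTo g (U x) (U x') := by
    intro u hu
    refine ⟨hg ▸ hu.1.map g.continuous, fun h => hu.2 ?_⟩
    have := h.map g.symm.continuous
    rw [← hg] at this
    simpa using this
  have m2 : MapsTo g.symm (U x') (U x) := by
    intro u hu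
    have e : g.symm x' = x := by rw [← hg]; simp
    refine ⟨e ▸ hu.1.map g.symm.continuous, fun h => hu.2 ?_⟩
    have := h.map g.continuous
    rw [hg] at this
    simpa using this
  have n1 : ∀ u ∈ U x, u ∉ D := fun u hu => hu.2
  have n2 : ∀ u ∈ U x', u ∉ D := fun u hu h => hu.2 (hxx'.trans h)
  obtain ⟨h, hh⟩ := hS (D ∪ U x) (D ∪ U x') (homeo_of_maps
    (fun u => if u ∈ D then u else g u) (fun u => if u ∈ D then u else g.symm u)
    (by
      intro u hu
      by_cases hd : u ∈ D
      · simp [hd]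
      · simp only [hd, if_false]
        exact Or.inr (m1 (hu.resolve_left hd)))
    (by
      intro u hu
      by_cases hd : u ∈ D
      · simp [hd]
      · simp only [hd, if_false]
        exact Or.inr (m2 (hu.resolve_left hd)))
    (by
      intro u hu
      by_cases hd : u ∈ D
      · simp [hd]
      · have := n2 _ (m1 (hu.resolve_left hd))
        simp [hd, this])
    (by
      intro u hu
      by_cases hd : u ∈ D
      · simp [hd]
      · have := n1 _ (m2 (hu.resolve_left hd))
        simp [hd, this])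
    (cont x x' g specializes_rfl hxx' m1 n1) (cont x' x g.symm hxx' specializes_rfl m2 n2))
  have hy : h x ∈ D ∪ U x' := hh ▸ mem_image_of_mem _ (Or.inl specializes_rfl)
  have hz : z ∉ D ∪ U x' := by
    rintro (h3 | h3)
    · exact hn h3
    · exact h2 h3.1
  apply hz
  rw [← hh]
  refine ⟨h.symm z, ?_, by simp⟩
  by_cases hd : x ⤳ h.symm z
  · exact Or.inl hd
  · refine Or.inr ⟨?_, hd⟩
    rcases hy with h3 | h3
    · have := (hxz.trans h3).map h.symm.continuous
      simpa using this
    · exfalso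
      apply hd
      have := (h3.1.trans h1).map h.symm.continuous
      simpa using this

lemma Thin.r0 (hS : Thin S) : R0Space S := ⟨⟨fun _ _ h => hS.specializes_symm h⟩⟩

end Pool.Agent.Lib.MP_52f683_gt
end

-- part Pool.Agent.Lib.MP_52f683_gt.Sep
section

set_option autoImplicit false

open Set Topology

namespace Pool.Agent.Lib.MP_52f683_gt

variable {S : Type*} [TopologicalSpace S]

/-- Inseparability classes of a thin space are finite. -/
lemma Thin.finite_class (hS : Thin S) (x : S) : {y | Inseparable x y}.Finite := by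
  classical
  by_contra hinf
  set C : Set S := {y | Inseparable x y} with hC
  have hinf' : C.Infinite := hinf
  have hcard : Cardinal.mk C = Cardinal.mk (C \ {x} : Set S) := by
    have h1 : Cardinal.mk (C \ {x} : Set S) + 1 = Cardinal.mk C := by
      have := Cardinal.mk_sdiff_add_mk (S := C) (T := {x}) (by
        intro y hy; rw [mem_singleton_iff.1 hy]; exact Inseparable.refl x)
      simpa using this
    have h2 : Cardinal.aleph0 ≤ Cardinal.mk (C \ {x} : Set S) :=
      Cardinal.infinite_iff.1 (hinf'.sdiff (finite_singleton x)).to_subtype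
    rw [← h1, Cardinal.add_one_eq h2]
  obtain ⟨e⟩ := Cardinal.eq.1 hcard
  have cont : ∀ (A B : Set S), A ⊆ C → B ⊆ C → ∀ f : A → B, Continuous f := by
    intro A B hA hB f
    rw [continuous_def]
    intro U hU
    obtain ⟨V, hV, rfl⟩ := isOpen_induced_iff.1 hU
    by_cases hx : x ∈ V
    · have : f ⁻¹' (Subtype.val ⁻¹' V) = univ := by
        ext a
        simp only [mem_preimage, mem_univ, iff_true]
        exact ((hB (f a).2).mem_open_iff hV).1 hx
      rw [this]; exact isOpen_univ
    · have : f ⁻¹' (Subtype.val ⁻¹' V) = ∅ := by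
        ext a
        simp only [mem_preimage, mem_empty_iff_false, iff_false]
        exact fun h => hx (((hB (f a).2).mem_open_iff hV).2 h)
      rw [this]; exact isOpen_empty
  obtain ⟨h, hh⟩ := hS C (C \ {x})
    ⟨{ toEquiv := e
       continuous_toFun := cont _ _ subset_rfl sdiff_subset _
       continuous_invFun := cont _ _ sdiff_subset subset_rfl _ }⟩
  have h1 : h x ∈ C \ {x} := hh ▸ mem_image_of_mem _ (Inseparable.refl x)
  have h2 : h.symm x ∈ C := by
    have := (h1.1.map h.symm.continuous).symm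
    simpa [hC] using this
  have h3 : x ∈ h '' C := ⟨_, h2, by simp⟩
  rw [hh] at h3
  exact h3.2 rfl

/-- If a thin space has two disjoint nonempty open sets, topologically distinct points are
separated by open sets. -/
lemma Thin.separate (hS : Thin S) {U V : Set S} (hU : IsOpen U) (hV : IsOpen V)
    (hUne : U.Nonempty) (hVne : V.Nonempty) (hUV : Disjoint U V) {x y : S}
    (hxy : ¬ Inseparable x y) :
    ∃ a b : Set S, IsOpen a ∧ IsOpen b ∧ x ∈ a ∧ y ∈ b ∧ Disjoint a b := by
  obtain ⟨u, hu⟩ := hUne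
  obtain ⟨v, hv⟩ := hVne
  have h1 : ¬ x ⤳ y := fun h => hxy (h.antisymm (hS.specializes_symm h))
  have h2 : ¬ y ⤳ x := fun h => h1 (hS.specializes_symm h)
  obtain ⟨OB, hOB, hyB, hxB⟩ := not_specializes_iff_exists_open.1 h1
  obtain ⟨OA, hOA, hxA, hyA⟩ := not_specializes_iff_exists_open.1 h2
  obtain ⟨g1, hg1⟩ := hS.homog x u
  obtain ⟨g2, hg2⟩ := hS.homog y v
  obtain ⟨h, hh⟩ := hS.glue2 (A := {x}) (B := {y}) g1 g2 hOA hOB (by simpa) (by simpa)
    (by simpa) (by simpa) hU hV (by simpa [hg1]) (by simpa [hg2])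
    (by simpa [hg2] using disjoint_right.1 hUV hv) (by simpa [hg1] using disjoint_left.1 hUV hu)
  simp only [image_singleton, hg1, hg2] at hh
  have huv : u ≠ v := fun h => disjoint_left.1 hUV hu (h ▸ hv)
  have hx : h x ∈ ({u} ∪ {v} : Set S) := hh ▸ mem_image_of_mem _ (Or.inl rfl)
  have hy : h y ∈ ({u} ∪ {v} : Set S) := hh ▸ mem_image_of_mem _ (Or.inr rfl)
  have hne : h x ≠ h y := fun e => hxy (by rw [h.injective e])
  have hd : Disjoint (h ⁻¹' U) (h ⁻¹' V) := hUV.preimage h
  rcases hx with hx | hx <;> rcases hy with hy | hy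
  · exact absurd (hx.trans hy.symm) hne
  · exact ⟨_, _, hU.preimage h.continuous, hV.preimage h.continuous,
      by rw [mem_preimage, hx]; exact hu, by rw [mem_preimage, hy]; exact hv, hd⟩
  · exact ⟨_, _, hV.preimage h.continuous, hU.preimage h.continuous,
      by rw [mem_preimage, hx]; exact hv, by rw [mem_preimage, hy]; exact hu, hd.symm⟩
  · exact absurd (hx.trans hy.symm) hne

/-- An infinite thin space has infinitely many pairwise topologically distinct points. -/
lemma Thin.exists_seq [Infinite S] (hS : Thin S) :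
    ∃ x : ℕ → S, ∀ i j, i ≠ j → ¬ Inseparable (x i) (x j) := by
  have : Infinite (SeparationQuotient S) := by
    by_contra hfin
    rw [not_infinite_iff_finite] at hfin
    have : (univ : Set S).Finite := by
      refine Finite.of_finite_fibers (SeparationQuotient.mk (X := S)) (toFinite _) ?_
      rintro _ ⟨x, -, rfl⟩
      refine (hS.finite_class x).subset ?_
      intro y hy
      exact (SeparationQuotient.mk_eq_mk.1 hy.2).symm
    exact infinite_univ this
  let e := Infinite.natEmbedding (SeparationQuotient S)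
  choose x hx using fun n => SeparationQuotient.surjective_mk (e n)
  refine ⟨x, fun i j hij h => hij (e.injective ?_)⟩
  rw [← hx, ← hx]
  exact SeparationQuotient.mk_eq_mk.2 h

/-- Splitting property: every nonempty open set contains two disjoint nonempty open sets. -/
def Split (S : Type*) [TopologicalSpace S] : Prop :=
  ∀ W : Set S, IsOpen W → W.Nonempty → ∃ a b : Set S, IsOpen a ∧ IsOpen b ∧ a.Nonempty ∧
    b.Nonempty ∧ a ⊆ W ∧ b ⊆ W ∧ Disjoint a b

lemma Thin.split [Infinite S] (hS : Thin S) {U V : Set S} (hU : IsOpen U) (hV : IsOpen V)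
    (hUne : U.Nonempty) (hVne : V.Nonempty) (hUV : Disjoint U V) : Split S := by
  intro W hW ⟨w, hw⟩
  by_cases hall : ∀ y ∈ W, Inseparable w y
  · exfalso
    have hWC : W = {y | Inseparable w y} :=
      Subset.antisymm hall fun y hy => (Inseparable.mem_open_iff hy hW).1 hw
    have hmap : ∀ (g : S ≃ₜ S) (a : S), g '' {y | Inseparable a y} = {y | Inseparable (g a) y} := by
      intro g a
      ext y
      constructor
      · rintro ⟨z, hz, rfl⟩
        exact Inseparable.map hz g.continuous
      · intro hy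
        refine ⟨g.symm y, ?_, by simp⟩
        have := Inseparable.map hy g.symm.continuous
        simpa using this
    obtain ⟨x, hx⟩ := hS.exists_seq
    choose g hg using fun n => hS.homog (x n) (x (n + 1))
    refine hS.no_shift (fun n => {y | Inseparable (x n) y}) ?_ ⟨x 0, Inseparable.refl _⟩ ?_ g ?_
    · intro n
      obtain ⟨k, hk⟩ := hS.homog w (x n)
      rw [← hk, ← hmap, ← hWC]
      exact k.isOpenMap _ hW
    · intro i j hij
      exact disjoint_left.2 fun y h1 h2 => hx i j hij (Inseparable.trans h1 (Inseparable.symm h2))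
    · intro n
      rw [hmap, hg]
  · push Not at hall
    obtain ⟨y, hy, hwy⟩ := hall
    obtain ⟨a, b, ha, hb, hwa, hyb, hab⟩ := hS.separate hU hV hUne hVne hUV hwy
    exact ⟨a ∩ W, b ∩ W, ha.inter hW, hb.inter hW, ⟨w, hwa, hw⟩, ⟨y, hyb, hy⟩, inter_subset_right,
      inter_subset_right, hab.mono inter_subset_left inter_subset_left⟩

lemma Split.seq (hs : Split S) {W : Set S} (hW : IsOpen W) (hne : W.Nonempty) :
    ∃ a : ℕ → Set S, (∀ n, IsOpen (a n)) ∧ (∀ n, (a n).Nonempty) ∧ (∀ n, a n ⊆ W) ∧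
      ∀ i j, i ≠ j → Disjoint (a i) (a j) := by
  let T := {X : Set S // IsOpen X ∧ X.Nonempty}
  have key : ∀ X : T, ∃ a b : T, a.1 ⊆ X.1 ∧ b.1 ⊆ X.1 ∧ Disjoint a.1 b.1 := by
    intro X
    obtain ⟨a, b, h1, h2, h3, h4, h5, h6, h7⟩ := hs X.1 X.2.1 X.2.2
    exact ⟨⟨a, h1, h3⟩, ⟨b, h2, h4⟩, h5, h6, h7⟩
  choose fa fb h1 h2 h3 using key
  let b : ℕ → T := fun n => fb^[n] ⟨W, hW, hne⟩
  have hb : ∀ n, b (n + 1) = fb (b n) := fun n => Function.iterate_succ_apply' _ _ _
  have hanti : Antitone fun n => (b n).1 :=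
    antitone_nat_of_succ_le fun n => by rw [hb]; exact h2 _
  have hlt : ∀ i j, i < j → Disjoint (fa (b i)).1 (fa (b j)).1 := by
    intro i j hij
    refine (h3 (b i)).mono_right ((h1 _).trans ?_)
    rw [← hb]
    exact hanti hij
  refine ⟨fun n => (fa (b n)).1, fun n => (fa (b n)).2.1, fun n => (fa (b n)).2.2,
    fun n => (h1 _).trans (hanti (Nat.zero_le n)), fun i j hij => ?_⟩
  rcases lt_or_gt_of_ne hij with h | h
  · exact hlt i j h
  · exact (hlt j i h).symm

end Pool.Agent.Lib.MP_52f683_gt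
end
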